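import Pool.Agent.Run7.h462.PA.AAa
import Pool.Agent.Run7.h462.BPD.Fin

/-!
# Project PA, piece AA: the right number of primes in almost all intervals `(F(n) + b, F(n) + b + A]`
-/

set_option autoImplicit false

namespace Run7.h462.PA

open Finset Filter Topology
open Run7.h994.PR (fi)
open Run7.h757.BP.Fin (rpow_ge_log)
open ArithmeticFunction (vonMangoldt)
open scoped Polynomial

lemma sum_mult (S J : Finset ℕ) (I : ℕ → Finset ℕ) (f : ℕ → ℝ) (hf : ∀ m, 0 ≤ f m) (hI : ∀ n ∈ S, I n ⊆ J) (Mx : ℝ)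
    (hM : ∀ m ∈ J, (#(S.filter (fun n => m ∈ I n)) : ℝ) ≤ Mx) :
    ∑ n ∈ S, ∑ m ∈ I n, f m ≤ Mx * ∑ m ∈ J, f m := by
  rw [Finset.sum_comm' (s := S) (t := I) (s' := fun m => S.filter (fun n => m ∈ I n)) (t' := J)]
  · rw [mul_sum]
    apply sum_le_sum
    intro m hm
    rw [sum_const, nsmul_eq_mul]
    exact mul_le_mul_of_nonneg_right (hM m hm) (hf m)
  · intro n m
    rw [mem_filter]
    constructor
    · rintro ⟨h1, h2⟩
      exact ⟨⟨h1, h2⟩, hI n h1 h2⟩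
    · rintro ⟨⟨h1, h2⟩, _⟩
      exact ⟨h1, h2⟩

/-- the primes in an interval and the von Mangoldt function -/
lemma primes_of_vm (v A : ℕ) (W lo hi : ℝ) (hlo : ∀ m ∈ Ioc v (v + A), lo ≤ Real.log m) (hhi : ∀ m ∈ Ioc v (v + A), Real.log m ≤ hi)
    (hW : W = ∑ y ∈ Icc 1 A, if Nat.Prime (v + y) then (1 : ℝ) else 0) :
    W * lo ≤ ∑ m ∈ Ioc v (v + A), vonMangoldt m ∧
      ∑ m ∈ Ioc v (v + A), vonMangoldt m ≤ W * hi + ∑ m ∈ (Ioc v (v + A)).filter (fun m => ¬ Nat.Prime m), vonMangoldt m := by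
  have h1 : W = ∑ m ∈ Ioc v (v + A), if Nat.Prime m then (1 : ℝ) else 0 := by
    rw [hW]
    apply sum_nbij' (fun y => v + y) (fun m => m - v)
    · intro y hy
      rw [mem_Icc] at hy
      rw [mem_Ioc]
      omega
    · intro m hm
      rw [mem_Ioc] at hm
      rw [mem_Icc]
      omega
    · intro y hy
      omega
    · intro m hm
      rw [mem_Ioc] at hm
      omega
    · intro y hy
      rfl
  have h2 : ∑ m ∈ Ioc v (v + A), vonMangoldt m =
      ∑ m ∈ (Ioc v (v + A)).filter Nat.Prime, Real.log m + ∑ m ∈ (Ioc v (v + A)).filter (fun m => ¬ Nat.Prime m), vonMangoldt m := by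
    rw [← sum_filter_add_sum_filter_not (Ioc v (v + A)) Nat.Prime]
    congr 1
    apply sum_congr rfl
    intro m hm
    rw [mem_filter] at hm
    exact ArithmeticFunction.vonMangoldt_apply_prime hm.2
  rw [← sum_filter, sum_const, nsmul_eq_mul, mul_one] at h1
  have h3 : 0 ≤ ∑ m ∈ (Ioc v (v + A)).filter (fun m => ¬ Nat.Prime m), vonMangoldt m :=
    sum_nonneg fun m _ => ArithmeticFunction.vonMangoldt_nonneg
  rw [h2, h1]
  constructor
  · have h4 : (#((Ioc v (v + A)).filter Nat.Prime) : ℝ) * lo ≤ ∑ m ∈ (Ioc v (v + A)).filter Nat.Prime, Real.log m := by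
      rw [← nsmul_eq_mul, ← sum_const]
      apply sum_le_sum
      intro m hm
      exact hlo m (mem_filter.1 hm).1
    linarith
  · have h4 : ∑ m ∈ (Ioc v (v + A)).filter Nat.Prime, Real.log m ≤ (#((Ioc v (v + A)).filter Nat.Prime) : ℝ) * hi := by
      rw [← nsmul_eq_mul, ← sum_const]
      apply sum_le_sum
      intro m hm
      exact hhi m (mem_filter.1 hm).1
    linarith

lemma fin_num (W Q ρ1 ρ : ℝ) (hQ : 0 < Q) (h0 : 0 < ρ1) (h1 : ρ1 ≤ 1 / 8) (h2 : 8 * ρ1 ≤ ρ)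
    (q1 : W * (1 - ρ1) ≤ (1 + 2 * ρ1) * Q) (q2 : (1 - 3 * ρ1) * Q ≤ W * (1 + ρ1)) : |W - Q| ≤ ρ * Q := by
  have hρQ : 8 * ρ1 * Q ≤ ρ * Q := by gcongr
  have hq : 0 ≤ ρ1 * ρ1 := by positivity
  rw [abs_le]
  constructor
  · have h3 : (1 - 8 * ρ1) * (1 + ρ1) ≤ 1 - 3 * ρ1 := by nlinarith
    have h7 : ((1 - 8 * ρ1) * Q) * (1 + ρ1) ≤ W * (1 + ρ1) := by
      refine le_trans ?_ q2
      calc ((1 - 8 * ρ1) * Q) * (1 + ρ1) = ((1 - 8 * ρ1) * (1 + ρ1)) * Q := by ring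
        _ ≤ _ := by gcongr
    have h8 := le_of_mul_le_mul_right h7 (by linarith)
    linarith
  · have h3 : (1 + 2 * ρ1) ≤ (1 + 8 * ρ1) * (1 - ρ1) := by nlinarith
    have h7 : W * (1 - ρ1) ≤ ((1 + 8 * ρ1) * Q) * (1 - ρ1) := by
      refine q1.trans ?_
      calc (1 + 2 * ρ1) * Q ≤ ((1 + 8 * ρ1) * (1 - ρ1)) * Q := by gcongr
        _ = _ := by ring
    have h8 := le_of_mul_le_mul_right h7 (by linarith)
    linarith

lemma one_n (v A Y : ℕ) (hA0 : (0 : ℝ) < A) (hY : 1 ≤ Y) (hYv : Y ≤ v) (hYA : Y ≤ A) (W ρ1 ρ K : ℝ) (hK : 0 < K) (h0 : 0 < ρ1)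
    (h1 : ρ1 ≤ 1 / 8) (h2 : 8 * ρ1 ≤ ρ) (hYle : (Y : ℝ) ≤ ρ1 * A)
    (hlow : ∀ m ∈ Ioc v (v + A), (1 - ρ1) * K ≤ Real.log m) (hhigh : ∀ m ∈ Ioc v (v + A), Real.log m ≤ (1 + ρ1) * K)
    (hW : W = ∑ y ∈ Icc 1 A, if Nat.Prime (v + y) then (1 : ℝ) else 0)
    (hT : (∑ m ∈ Ioc (v - Y) (v + A), |∑ n ∈ Ioc m (m + Y), vonMangoldt n - Y|) / Y +
      ∑ m ∈ (Ioc v (v + A)).filter (fun m => ¬ Nat.Prime m), vonMangoldt m ≤ ρ1 * A) : |W - A / K| ≤ ρ * (A / K) := by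
  have hwin := win_both (fun m => vonMangoldt m) (fun m => ArithmeticFunction.vonMangoldt_nonneg) v A Y hY hYv hYA
  obtain ⟨p1, p2⟩ := primes_of_vm v A W _ _ hlow hhigh hW
  obtain ⟨Sv, hSv⟩ : ∃ Sv : ℝ, Sv = ∑ m ∈ Ioc v (v + A), vonMangoldt m := ⟨_, rfl⟩
  obtain ⟨T1, hT1⟩ : ∃ T1 : ℝ, T1 = (∑ m ∈ Ioc (v - Y) (v + A), |∑ n ∈ Ioc m (m + Y), vonMangoldt n - Y|) / Y := ⟨_, rfl⟩
  obtain ⟨T2, hT2⟩ : ∃ T2 : ℝ, T2 = ∑ m ∈ (Ioc v (v + A)).filter (fun m => ¬ Nat.Prime m), vonMangoldt m := ⟨_, rfl⟩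
  rw [← hSv] at p1 p2 hwin
  rw [← hT1, ← hT2] at hT
  rw [← hT1] at hwin
  rw [← hT2] at p2
  have hT10 : 0 ≤ T1 := by
    rw [hT1]
    have : 0 ≤ ∑ m ∈ Ioc (v - Y) (v + A), |∑ n ∈ Ioc m (m + Y), vonMangoldt n - Y| := sum_nonneg fun m _ => abs_nonneg _
    positivity
  have hT20 : 0 ≤ T2 := by rw [hT2]; exact sum_nonneg fun m _ => ArithmeticFunction.vonMangoldt_nonneg
  obtain ⟨w1, w2⟩ := abs_le.1 hwin
  obtain ⟨Q, hQ⟩ : ∃ Q : ℝ, Q = A / K := ⟨_, rfl⟩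
  have hQA : (A : ℝ) = Q * K := by rw [hQ]; field_simp
  have hQ0 : 0 < Q := by rw [hQ]; positivity
  rw [← hQ]
  apply fin_num W Q ρ1 ρ hQ0 h0 h1 h2
  · have h7 : (W * (1 - ρ1)) * K ≤ ((1 + 2 * ρ1) * Q) * K := by
      calc (W * (1 - ρ1)) * K = W * ((1 - ρ1) * K) := by ring
        _ ≤ (1 + 2 * ρ1) * A := by linarith
        _ = _ := by rw [hQA]; ring
    exact le_of_mul_le_mul_right h7 hK
  · have h7 : ((1 - 3 * ρ1) * Q) * K ≤ (W * (1 + ρ1)) * K := by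
      calc ((1 - 3 * ρ1) * Q) * K = (1 - 3 * ρ1) * A := by rw [hQA]; ring
        _ ≤ W * ((1 + ρ1) * K) := by linarith
        _ = _ := by ring
    exact le_of_mul_le_mul_right h7 hK

theorem aa (F : ℤ[X]) (hd : 2 ≤ F.natDegree) (hl : 0 < F.leadingCoeff) (hM : S_MSX) : S_AA F := by
  classical
  intro B U ρ hρ
  obtain ⟨n0, hn01, hpoly⟩ := poly_large F hd hl
  obtain ⟨d, hdd⟩ : ∃ d : ℕ, d = F.natDegree := ⟨_, rfl⟩
  rw [← hdd] at hd hpoly ⊢
  obtain ⟨ℓn, hℓn⟩ : ∃ ℓn : ℕ, ℓn = F.leadingCoeff.toNat := ⟨_, rfl⟩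
  have hℓz : (ℓn : ℤ) = F.leadingCoeff := by rw [hℓn]; exact Int.toNat_of_nonneg hl.le
  have hℓr : (F.leadingCoeff : ℝ) = ℓn := by rw [← hℓz]; simp
  rw [hℓr] at hpoly
  have hℓ1 : 1 ≤ ℓn := by omega
  have hℓ1r : (1 : ℝ) ≤ ℓn := by exact_mod_cast hℓ1
  obtain ⟨ρ1, hρ1⟩ : ∃ ρ1 : ℝ, ρ1 = min ρ 1 / 8 := ⟨_, rfl⟩
  have hρ10 : 0 < ρ1 := by rw [hρ1]; have := lt_min hρ one_pos; positivity
  have hρ18 : ρ1 ≤ 1 / 8 := by rw [hρ1]; linarith [min_le_right ρ 1]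
  have hρ1ρ : 8 * ρ1 ≤ ρ := by rw [hρ1]; linarith [min_le_left ρ 1]
  obtain ⟨u, hu⟩ : ∃ u : ℕ, u = (U + 1) * d := ⟨_, rfl⟩
  obtain ⟨D, hD⟩ : ∃ D : ℕ, D = u + 1 := ⟨_, rfl⟩
  obtain ⟨V, hV⟩ : ∃ V : ℕ, V = B + u + U + 2 := ⟨_, rfl⟩
  obtain ⟨X₀, hMX⟩ := hM D V
  have hdr2 : (2 : ℝ) ≤ d := by exact_mod_cast hd
  -- largeness
  obtain ⟨M1, hM1⟩ := eventually_atTop.1 (rpow_ge_log 1 one_pos (B + u) 8 (by norm_num))
  obtain ⟨M2, hM2⟩ := eventually_atTop.1 (rpow_ge_log (1 / 5) (by norm_num) B (6 * ℓn / ρ1) (by positivity))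
  obtain ⟨M3, hM3⟩ := eventually_atTop.1 (rpow_ge_log 1 one_pos (B + D + 1) ((2 * d) ^ (D + 1)) (by positivity))
  obtain ⟨M4, hM4⟩ := eventually_atTop.1 (rpow_ge_log (1 / 2) (by norm_num) (V + 1) (4 * d) (by positivity))
  obtain ⟨M5, hM5⟩ := eventually_atTop.1 (rpow_ge_log ρ1 hρ10 u 4 (by norm_num))
  obtain ⟨M6, hM6⟩ := eventually_atTop.1 (rpow_ge_log 1 one_pos (U + 1) (n0 + 1) (by positivity))
  obtain ⟨M7, hM7⟩ := eventually_atTop.1 ((Real.tendsto_log_atTop.comp (tendsto_natCast_atTop_atTop (R := ℝ))).eventually_ge_atTop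
    (36 * ℓn / ρ1 + 36 * ℓn))
  refine ⟨M1 + M2 + M3 + M4 + M5 + M6 + M7 + X₀ + 3, fun N hN A b hA1 hA2 hb => ?_⟩
  have g1 := hM1 N (by omega)
  have g2 := hM2 N (by omega)
  have g3 := hM3 N (by omega)
  have g4 := hM4 N (by omega)
  have g5 := hM5 N (by omega)
  have g6 := hM6 N (by omega)
  have g7 := hM7 N (by omega)
  simp only [Function.comp] at g7
  obtain ⟨L, hL⟩ : ∃ L : ℝ, L = Real.log N := ⟨_, rfl⟩
  rw [← hL] at g1 g2 g3 g4 g5 g6 g7 hA1 hA2 hb ⊢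
  rw [Real.rpow_one] at g1 g3 g6
  have hN3 : (3 : ℝ) ≤ N := by exact_mod_cast (by omega : 3 ≤ N)
  have hN0 : (0 : ℝ) < N := by linarith
  have hN1 : (1 : ℝ) ≤ N := by linarith
  have h36 : 0 ≤ 36 * ℓn / ρ1 := by positivity
  have hL36 : 36 ≤ L := by linarith
  have hLℓ : 36 * ℓn ≤ L := by linarith
  have hLρ : 36 * ℓn / ρ1 ≤ L := by linarith
  have hL0 : 0 < L := by linarith
  have hL1 : 1 ≤ L := by linarith
  -- `P = N^(d-1)`
  obtain ⟨P, hP⟩ : ∃ P : ℝ, P = (N : ℝ) ^ (d - 1) := ⟨_, rfl⟩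
  rw [← hP] at hA1 hA2 hb
  have hP0 : 0 < P := by rw [hP]; positivity
  have hP1 : 1 ≤ P := by rw [hP]; exact one_le_pow₀ hN1
  have hNP : (N : ℝ) ^ d = N * P := by
    rw [hP, ← pow_succ']
    congr 1
    omega
  have hA0 : (0 : ℝ) < A := by
    by_contra hcon
    push Not at hcon
    have : (A : ℝ) = 0 := le_antisymm hcon (Nat.cast_nonneg _)
    rw [this, zero_mul] at hA1
    linarith
  -- `n1`
  obtain ⟨n1, hn1⟩ : ∃ n1 : ℕ, n1 = ⌈(N : ℝ) / L ^ (U + 1)⌉₊ := ⟨_, rfl⟩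
  have hn1a : (N : ℝ) / L ^ (U + 1) ≤ n1 := by rw [hn1]; exact Nat.le_ceil _
  have hn1b : (n1 : ℝ) ≤ 2 * ((N : ℝ) / L ^ (U + 1)) := by
    have h1 : (n1 : ℝ) < (N : ℝ) / L ^ (U + 1) + 1 := by rw [hn1]; exact Nat.ceil_lt_add_one (by positivity)
    have h2 : 1 ≤ (N : ℝ) / L ^ (U + 1) := by
      rw [le_div_iff₀ (by positivity)]
      have h3 : (0 : ℝ) ≤ n0 := Nat.cast_nonneg _
      have h4 : 0 < L ^ (U + 1) := by positivity
      have h5 := mul_nonneg h3 h4.le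
      linarith
    linarith
  have hn10 : n0 ≤ n1 := by
    have h2 : (n0 : ℝ) ≤ (N : ℝ) / L ^ (U + 1) := by
      rw [le_div_iff₀ (by positivity)]
      have h4 : 0 < L ^ (U + 1) := by positivity
      linarith
    exact_mod_cast h2.trans hn1a
  have hn11 : 1 ≤ n1 := by omega
  have hn1r : (0 : ℝ) < n1 := by exact_mod_cast hn11
  have hLu : 0 < L ^ u := by positivity
  have hLu1 : 1 ≤ L ^ u := one_le_pow₀ hL1
  have hLB : 0 < L ^ B := by positivity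
  have hLB1 : 1 ≤ L ^ B := one_le_pow₀ hL1
  have hn1d : N * P / L ^ u ≤ (n1 : ℝ) ^ d := by
    calc N * P / L ^ u = ((N : ℝ) / L ^ (U + 1)) ^ d := by rw [div_pow, ← pow_mul, hNP, hu]
      _ ≤ _ := by gcongr
  have hn1g : P / L ^ u ≤ (n1 : ℝ) ^ (d - 1) := by
    calc P / L ^ u ≤ P / L ^ ((U + 1) * (d - 1)) := by
          apply div_le_div_of_nonneg_left hP0.le (by positivity)
          apply pow_le_pow_right₀ hL1
          rw [hu]
          exact Nat.mul_le_mul_left _ (by omega)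
      _ = ((N : ℝ) / L ^ (U + 1)) ^ (d - 1) := by rw [div_pow, ← pow_mul, hP]
      _ ≤ _ := by gcongr
  -- the values
  have hPB : P * L ^ B ≤ N * P / L ^ u / 8 := by
    rw [le_div_iff₀ (by norm_num), le_div_iff₀ hLu]
    rw [pow_add] at g1
    calc P * L ^ B * 8 * L ^ u = P * (8 * (L ^ B * L ^ u)) := by ring
      _ ≤ P * N := by gcongr
      _ = N * P := by ring
  obtain ⟨v, hv⟩ : ∃ v : ℕ → ℕ, v = fun n : ℕ => (F.eval (n : ℤ) + b).toNat := ⟨_, rfl⟩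
  have hval : ∀ n : ℕ, n1 ≤ n → n ≤ N → ((v n : ℕ) : ℤ) = F.eval (n : ℤ) + b ∧ N * P / L ^ u * (3 / 8) ≤ (v n : ℝ) ∧
      (v n : ℝ) + A ≤ 3 * ℓn * (N * P) := by
    intro n hn1n hnN
    obtain ⟨h1, h2, _⟩ := hpoly n (by omega)
    have h3 : (n1 : ℝ) ^ d ≤ (n : ℝ) ^ d := by
      apply pow_le_pow_left₀ hn1r.le
      exact_mod_cast hn1n
    have h4 : (n : ℝ) ^ d ≤ N * P := by
      rw [← hNP]
      apply pow_le_pow_left₀ (Nat.cast_nonneg _)
      exact_mod_cast hnN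
    obtain ⟨hb1, hb2⟩ := abs_le.1 hb
    have h5 : N * P / L ^ u * (3 / 8) ≤ ((F.eval (n : ℤ) : ℤ) : ℝ) + b := by linarith
    have h50 : 0 < N * P / L ^ u := by positivity
    have h6 : 0 < F.eval (n : ℤ) + b := by
      have : (0 : ℝ) < ((F.eval (n : ℤ) + b : ℤ) : ℝ) := by
        push_cast
        linarith
      exact_mod_cast this
    have h7 : ((v n : ℕ) : ℤ) = F.eval (n : ℤ) + b := by
      rw [hv]
      exact Int.toNat_of_nonneg h6.le
    have h8 : (v n : ℝ) = ((F.eval (n : ℤ) : ℤ) : ℝ) + b := by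
      have : ((v n : ℤ) : ℝ) = ((F.eval (n : ℤ) + b : ℤ) : ℝ) := by rw [h7]
      push_cast at this
      exact this
    refine ⟨h7, by rw [h8]; exact h5, ?_⟩
    rw [h8]
    have h9 : P * L ^ B * 2 ≤ N * P := by
      have : N * P / L ^ u ≤ N * P := div_le_self (by positivity) hLu1
      have : 0 < N * P := by positivity
      linarith
    have h10 : 2 * (ℓn : ℝ) * (n : ℝ) ^ d ≤ 2 * ℓn * (N * P) := by gcongr
    have h11 : (N : ℝ) * P ≤ ℓn * (N * P) := le_mul_of_one_le_left (by positivity) hℓ1r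
    linarith
  -- `X`
  obtain ⟨X, hX⟩ : ∃ X : ℕ, X = 3 * ℓn * N ^ d := ⟨_, rfl⟩
  have hXr : (X : ℝ) = 3 * ℓn * (N * P) := by
    rw [hX]
    push_cast
    rw [hNP]
  have hNPN : (N : ℝ) ≤ N * P := le_mul_of_one_le_right hN0.le hP1
  have hXNP : N * P ≤ (X : ℝ) := by
    rw [hXr]
    have h11 : (N : ℝ) * P ≤ ℓn * (N * P) := le_mul_of_one_le_left (by positivity) hℓ1r
    have h12 : 0 < (N : ℝ) * P := by positivity
    linarith
  have hXN : (N : ℝ) ≤ X := hNPN.trans hXNP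
  have hX0 : (0 : ℝ) < X := by linarith
  have hX₀ : X₀ ≤ X := by
    have h1 : N ≤ X := by exact_mod_cast hXN
    omega
  have hlogX1 : L ≤ Real.log X := by rw [hL]; exact Real.log_le_log hN0 hXN
  have hlogX : Real.log X = Real.log (3 * ℓn) + d * L := by
    rw [hXr, ← hNP, Real.log_mul (by positivity) (by positivity), Real.log_pow, ← hL]
  have hlog3 : Real.log (3 * ℓn) ≤ 3 * ℓn := by
    have := Real.log_le_sub_one_of_pos (show (0 : ℝ) < 3 * ℓn by positivity)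
    linarith
  have hlogX2 : Real.log X ≤ 2 * d * L := by
    rw [hlogX]
    have hdL1 : L ≤ d * L := le_mul_of_one_le_left hL0.le (by linarith)
    linarith
  -- `Y`
  obtain ⟨Y, hY⟩ : ∃ Y : ℕ, Y = ⌊ρ1 * A⌋₊ := ⟨_, rfl⟩
  have hYle : (Y : ℝ) ≤ ρ1 * A := by rw [hY]; exact Nat.floor_le (by positivity)
  have hYA : (Y : ℝ) ≤ A := hYle.trans (mul_le_of_le_one_left hA0.le (by linarith))
  have hYAn : Y ≤ A := by exact_mod_cast hYA
  have hApow : 6 * ℓn * (N : ℝ) ^ ((2 / 5 : ℝ) * d) ≤ ρ1 * A := by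
    have h1 : (N : ℝ) ^ ((2 / 5 : ℝ) * d) * (N : ℝ) ^ (1 / 5 : ℝ) ≤ P := by
      rw [← Real.rpow_add hN0, hP, ← Real.rpow_natCast]
      apply Real.rpow_le_rpow_of_exponent_le hN1
      rw [Nat.cast_sub (by omega)]
      push_cast
      linarith
    have h2 : (N : ℝ) ^ ((2 / 5 : ℝ) * d) * (6 * ℓn / ρ1 * L ^ B) ≤ A * L ^ B := by
      refine le_trans ?_ (h1.trans hA1)
      gcongr
    have h3 : (N : ℝ) ^ ((2 / 5 : ℝ) * d) * (6 * ℓn / ρ1) ≤ A := by
      have h4 : ((N : ℝ) ^ ((2 / 5 : ℝ) * d) * (6 * ℓn / ρ1)) * L ^ B ≤ A * L ^ B := by linarith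
      exact le_of_mul_le_mul_right h4 hLB
    calc 6 * ℓn * (N : ℝ) ^ ((2 / 5 : ℝ) * d) = ρ1 * ((N : ℝ) ^ ((2 / 5 : ℝ) * d) * (6 * ℓn / ρ1)) := by
          field_simp
      _ ≤ _ := by gcongr
  have hNd1 : 1 ≤ (N : ℝ) ^ ((2 / 5 : ℝ) * d) := Real.one_le_rpow hN1 (by positivity)
  have hYge : 3 * ℓn * (N : ℝ) ^ ((2 / 5 : ℝ) * d) ≤ Y := by
    have h1 : ρ1 * A < Y + 1 := by rw [hY]; exact Nat.lt_floor_add_one _
    have h2 : 1 ≤ ℓn * (N : ℝ) ^ ((2 / 5 : ℝ) * d) := one_le_mul_of_one_le_of_one_le hℓ1r hNd1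
    linarith
  have hYX : (X : ℝ) ^ (2 / 5 : ℝ) ≤ Y := by
    refine le_trans ?_ hYge
    rw [hXr, ← hNP, Real.mul_rpow (by positivity) (by positivity)]
    apply mul_le_mul
    · calc ((3 : ℝ) * ℓn) ^ (2 / 5 : ℝ) ≤ (3 * ℓn) ^ (1 : ℝ) := by
            apply Real.rpow_le_rpow_of_exponent_le _ (by norm_num)
            linarith
        _ = 3 * ℓn := Real.rpow_one _
    · rw [← Real.rpow_natCast, ← Real.rpow_mul hN0.le]
      apply le_of_eq
      congr 1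
      ring
    · positivity
    · positivity
  have hY1 : 1 ≤ Y := by
    have h1 : (1 : ℝ) ≤ Y := by
      refine le_trans ?_ hYge
      have h2 : 1 ≤ ℓn * (N : ℝ) ^ ((2 / 5 : ℝ) * d) := one_le_mul_of_one_le_of_one_le hℓ1r hNd1
      linarith
    exact_mod_cast h1
  have hY0 : (0 : ℝ) < Y := by exact_mod_cast hY1
  have hYX2 : (Y : ℝ) * Real.log X ^ (D + 1) ≤ X := by
    have h0 : 0 ≤ Real.log X := by linarith
    calc (Y : ℝ) * Real.log X ^ (D + 1) ≤ (P * L ^ B) * (2 * d * L) ^ (D + 1) := by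
          apply mul_le_mul (hYA.trans hA2) (pow_le_pow_left₀ h0 hlogX2 _) (by positivity) (by positivity)
      _ = P * ((2 * d) ^ (D + 1) * L ^ (B + D + 1)) := by
          rw [mul_pow (2 * (d : ℝ)) L, add_assoc B D 1, pow_add L B]
          ring
      _ ≤ P * N := by gcongr
      _ = N * P := by ring
      _ ≤ X := hXNP
  have hMS := hMX X hX₀ Y hYX hYX2
  obtain ⟨e, he⟩ : ∃ e : ℕ → ℝ, e = fun m => |∑ n ∈ Ioc m (m + Y), vonMangoldt n - Y| := ⟨_, rfl⟩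
  have hem : ∀ m, |∑ n ∈ Ioc m (m + Y), vonMangoldt n - Y| = e m := fun m => by rw [he]
  simp only [hem] at hMS
  have he0 : ∀ m, 0 ≤ e m := fun m => by rw [he]; exact abs_nonneg _
  obtain ⟨J, hJ⟩ : ∃ J : Finset ℕ, J = (Icc 1 X).filter (fun m : ℕ => (X : ℝ) ≤ m * Real.log X ^ D) := ⟨_, rfl⟩
  rw [← hJ] at hMS
  obtain ⟨g, hg⟩ : ∃ g : ℕ → ℝ, g = fun m => if Nat.Prime m then 0 else vonMangoldt m := ⟨_, rfl⟩
  have hg0 : ∀ m, 0 ≤ g m := fun m => by
    rw [hg]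
    simp only
    split_ifs
    · exact le_rfl
    · exact ArithmeticFunction.vonMangoldt_nonneg
  -- the total error
  obtain ⟨Tt, hTt⟩ : ∃ Tt : ℕ → ℝ, Tt = fun n => (∑ m ∈ Ioc (v n - Y) (v n + A), e m) / Y + ∑ m ∈ Ioc (v n) (v n + A), g m := ⟨_, rfl⟩
  obtain ⟨Mx, hMx⟩ : ∃ Mx : ℝ, Mx = (A + Y) / (n1 : ℝ) ^ (d - 1) + 1 := ⟨_, rfl⟩
  have hS : ∀ n ∈ Icc n1 N, n1 ≤ n ∧ n ≤ N := fun n hn => mem_Icc.1 hn
  have hYv : ∀ n ∈ Icc n1 N, Y ≤ v n ∧ N * P / L ^ u / 4 ≤ (v n : ℝ) - Y := by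
    intro n hn
    obtain ⟨h1, h2, h3⟩ := hval n (hS n hn).1 (hS n hn).2
    have h4 : (Y : ℝ) ≤ N * P / L ^ u / 8 := (hYA.trans hA2).trans hPB
    have h50 : 0 < N * P / L ^ u := by positivity
    have h5 : (Y : ℝ) ≤ v n := by linarith
    exact ⟨by exact_mod_cast h5, by linarith⟩
  have hcount : ∀ m : ℕ, (#((Icc n1 N).filter (fun n => m ∈ Ioc (v n - Y) (v n + A))) : ℝ) ≤ Mx := by
    intro m
    have h1 := mult F n0 n1 hn10 hn11 (d - 1) (fun n hn => (hpoly n hn).2.2) N ((m : ℝ) - A - b) ((m : ℝ) + Y - b) (by linarith)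
      ((Icc n1 N).filter (fun n => m ∈ Ioc (v n - Y) (v n + A))) ?_
    · rw [hMx]
      refine h1.trans (le_of_eq ?_)
      congr 2
      ring
    · intro n hn
      rw [mem_filter, mem_Ioc] at hn
      obtain ⟨hn2, hn3, hn4⟩ := hn
      obtain ⟨h2, _, _⟩ := hval n (hS n hn2).1 (hS n hn2).2
      obtain ⟨h5, _⟩ := hYv n hn2
      have h8 : (v n : ℝ) = ((F.eval (n : ℤ) : ℤ) : ℝ) + b := by
        have : ((v n : ℤ) : ℝ) = ((F.eval (n : ℤ) + b : ℤ) : ℝ) := by rw [h2]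
        push_cast at this
        exact this
      have h9 : (v n : ℝ) ≤ m + Y := by exact_mod_cast (by omega : v n ≤ m + Y)
      have h10 : (m : ℝ) ≤ v n + A := by exact_mod_cast hn4
      refine ⟨(hS n hn2).1, by linarith, by linarith⟩
  have hsum1 : ∑ n ∈ Icc n1 N, ∑ m ∈ Ioc (v n - Y) (v n + A), e m ≤ Mx * ∑ m ∈ J, e m := by
    apply sum_mult _ _ _ _ he0 _ _ (fun m _ => hcount m)
    intro n hn m hm
    rw [mem_Ioc] at hm
    obtain ⟨h2, h3, h4⟩ := hval n (hS n hn).1 (hS n hn).2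
    obtain ⟨h5, h6⟩ := hYv n hn
    rw [hJ, mem_filter, mem_Icc]
    have h7 : (m : ℝ) ≤ X := by
      have h8 : (m : ℝ) ≤ v n + A := by exact_mod_cast hm.2
      rw [hXr]
      linarith
    have h9 : N * P / L ^ u / 4 ≤ (m : ℝ) := by
      have h8 : (v n : ℝ) ≤ m + Y := by exact_mod_cast (by omega : v n ≤ m + Y)
      linarith
    refine ⟨⟨by omega, by exact_mod_cast h7⟩, ?_⟩
    have h10 : L ^ D ≤ Real.log X ^ D := pow_le_pow_left₀ hL0.le hlogX1 D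
    calc (X : ℝ) = 3 * ℓn * (N * P) := hXr
      _ ≤ (L / 4) * (N * P) := by
          apply mul_le_mul_of_nonneg_right _ (by positivity)
          linarith
      _ = (N * P / L ^ u / 4) * L ^ D := by
          rw [hD, pow_succ]
          field_simp
      _ ≤ m * Real.log X ^ D := by gcongr
  have hsum2 : ∑ n ∈ Icc n1 N, ∑ m ∈ Ioc (v n) (v n + A), g m ≤ Mx * ∑ m ∈ Icc 1 X, g m := by
    apply sum_mult _ _ _ _ hg0
    · intro n hn m hm
      rw [mem_Ioc] at hm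
      obtain ⟨h2, h3, h4⟩ := hval n (hS n hn).1 (hS n hn).2
      rw [mem_Icc]
      have h7 : (m : ℝ) ≤ X := by
        have h8 : (m : ℝ) ≤ v n + A := by exact_mod_cast hm.2
        rw [hXr]
        linarith
      exact ⟨by omega, by exact_mod_cast h7⟩
    · intro m _
      refine le_trans ?_ (hcount m)
      have h1 : (Icc n1 N).filter (fun n => m ∈ Ioc (v n) (v n + A)) ⊆
          (Icc n1 N).filter (fun n => m ∈ Ioc (v n - Y) (v n + A)) := by
        intro n hn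
        rw [mem_filter, mem_Ioc] at hn ⊢
        exact ⟨hn.1, by omega, hn.2.2⟩
      exact_mod_cast card_le_card h1
  have hpsi : ∑ m ∈ Icc 1 X, g m ≤ X / L ^ V := by
    have h1 : ∑ m ∈ Icc 1 X, g m = Chebyshev.psi X - Chebyshev.theta X := by
      rw [Chebyshev.psi_sub_theta_eq_sum_not_prime, Nat.floor_natCast, sum_filter, hg]
      apply sum_congr
      · ext m
        rw [mem_Icc, mem_Ioc]
        omega
      · intro m _
        by_cases h : Nat.Prime m <;> simp [h]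
    rw [h1]
    refine (Chebyshev.psi_sub_theta_le (by linarith)).trans ?_
    rw [le_div_iff₀ (by positivity)]
    have h2 : (N : ℝ) ^ (1 / 2 : ℝ) ≤ √X := by
      rw [Real.sqrt_eq_rpow]
      exact Real.rpow_le_rpow hN0.le hXN (by norm_num)
    calc 2 * √X * Real.log X * L ^ V ≤ 2 * √X * (2 * d * L) * L ^ V := by gcongr
      _ = √X * (4 * d * L ^ (V + 1)) := by rw [pow_succ]; ring
      _ ≤ √X * √X := by
          apply mul_le_mul_of_nonneg_left _ (Real.sqrt_nonneg _)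
          exact g4.trans h2
      _ = X := Real.mul_self_sqrt hX0.le
  have hMx0 : 0 ≤ Mx := by rw [hMx]; positivity
  have hTsum : ∑ n ∈ Icc n1 N, Tt n ≤ 2 * Mx * (X / L ^ V) := by
    rw [hTt]
    simp only
    rw [sum_add_distrib, ← sum_div]
    have h1 : (∑ n ∈ Icc n1 N, ∑ m ∈ Ioc (v n - Y) (v n + A), e m) / Y ≤ Mx * (X / L ^ V) := by
      rw [div_le_iff₀ hY0]
      refine hsum1.trans ?_
      rw [mul_assoc]
      apply mul_le_mul_of_nonneg_left _ hMx0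
      refine hMS.trans ?_
      rw [div_mul_eq_mul_div]
      apply div_le_div_of_nonneg_left (by positivity) (by positivity)
      exact pow_le_pow_left₀ hL0.le hlogX1 V
    have h2 : ∑ n ∈ Icc n1 N, ∑ m ∈ Ioc (v n) (v n + A), g m ≤ Mx * (X / L ^ V) :=
      hsum2.trans (mul_le_mul_of_nonneg_left hpsi hMx0)
    linarith
  have hMxX : Mx * X ≤ 9 * ℓn * N * (L ^ B * L ^ u) * A := by
    have h1 : (A + Y) / (n1 : ℝ) ^ (d - 1) ≤ 2 * A * L ^ u / P := by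
      rw [div_le_div_iff₀ (by positivity) hP0]
      have h2 : P ≤ (n1 : ℝ) ^ (d - 1) * L ^ u := by rwa [div_le_iff₀ hLu] at hn1g
      calc (A + Y) * P ≤ (2 * A) * ((n1 : ℝ) ^ (d - 1) * L ^ u) := by
            apply mul_le_mul (by linarith) h2 hP0.le (by positivity)
        _ = _ := by ring
    have h3 : 1 ≤ A * L ^ B / P := by
      rw [le_div_iff₀ hP0]
      linarith
    have h4 : Mx ≤ 3 * A * (L ^ B * L ^ u) / P := by
      rw [hMx]
      have h5 : 2 * A * L ^ u / P ≤ 2 * A * (L ^ B * L ^ u) / P := by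
        gcongr
        exact le_mul_of_one_le_left hLu.le hLB1
      have h6 : A * L ^ B / P ≤ A * (L ^ B * L ^ u) / P := by
        gcongr
        exact le_mul_of_one_le_right hLB.le hLu1
      have h7 : 3 * A * (L ^ B * L ^ u) / P = 2 * A * (L ^ B * L ^ u) / P + A * (L ^ B * L ^ u) / P := by ring
      linarith
    calc Mx * X ≤ (3 * A * (L ^ B * L ^ u) / P) * (3 * ℓn * (N * P)) := by
          rw [hXr]
          gcongr
      _ = _ := by field_simp; ring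
  -- the exceptions
  obtain ⟨Ex, hEx⟩ : ∃ Ex : Finset ℕ, Ex = range n1 ∪ (Icc n1 N).filter (fun n => ρ1 * A < Tt n) := ⟨_, rfl⟩
  have hE2 : (#((Icc n1 N).filter (fun n => ρ1 * A < Tt n)) : ℝ) ≤ N / L ^ U / 2 := by
    have hTt0 : ∀ n, 0 ≤ Tt n := by
      intro n
      rw [hTt]
      simp only
      have h1 : 0 ≤ ∑ m ∈ Ioc (v n - Y) (v n + A), e m := sum_nonneg fun m _ => he0 m
      have h2 : 0 ≤ ∑ m ∈ Ioc (v n) (v n + A), g m := sum_nonneg fun m _ => hg0 m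
      positivity
    have h1 : (#((Icc n1 N).filter (fun n => ρ1 * A < Tt n)) : ℝ) * (ρ1 * A) ≤ ∑ n ∈ Icc n1 N, Tt n := by
      rw [← nsmul_eq_mul, ← sum_const]
      calc ∑ _n ∈ (Icc n1 N).filter (fun n => ρ1 * A < Tt n), ρ1 * A ≤
          ∑ n ∈ (Icc n1 N).filter (fun n => ρ1 * A < Tt n), Tt n := by
            apply sum_le_sum
            intro n hn
            exact (mem_filter.1 hn).2.le
        _ ≤ _ := sum_le_sum_of_subset_of_nonneg (filter_subset _ _) (fun n _ _ => hTt0 n)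
    have h2 : (#((Icc n1 N).filter (fun n => ρ1 * A < Tt n)) : ℝ) * (ρ1 * A) ≤ (N / L ^ U / 2) * (ρ1 * A) := by
      refine (h1.trans hTsum).trans ?_
      have h3 : 2 * Mx * (X / L ^ V) = 2 * (Mx * X) / L ^ V := by ring
      rw [h3, div_le_iff₀ (by positivity)]
      have h4 : L ^ V = L ^ B * L ^ u * L ^ U * (L * L) := by
        rw [hV, pow_add, pow_add, pow_add]
        ring
      have h5 : 36 * ℓn ≤ ρ1 * L := by
        rw [div_le_iff₀ hρ10] at hLρ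
        linarith
      have h6 : 36 * ℓn ≤ ρ1 * (L * L) := h5.trans (mul_le_mul_of_nonneg_left (le_mul_of_one_le_left hL0.le hL1) hρ10.le)
      calc 2 * (Mx * X) ≤ 2 * (9 * ℓn * N * (L ^ B * L ^ u) * A) := by gcongr
        _ = (36 * ℓn) * (N / 2 * A * (L ^ B * L ^ u)) := by ring
        _ ≤ (ρ1 * (L * L)) * (N / 2 * A * (L ^ B * L ^ u)) := by gcongr
        _ = (N / L ^ U / 2) * (ρ1 * A) * L ^ V := by
            rw [h4]
            field_simp
    exact le_of_mul_le_mul_right h2 (by positivity)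
  refine ⟨Ex, ?_, fun n hn hnE => ?_⟩
  · have h1 : (#Ex : ℝ) ≤ n1 + #((Icc n1 N).filter (fun n => ρ1 * A < Tt n)) := by
      rw [hEx]
      have := card_union_le (range n1) ((Icc n1 N).filter (fun n => ρ1 * A < Tt n))
      rw [card_range] at this
      exact_mod_cast this
    have h2 : 2 * ((N : ℝ) / L ^ (U + 1)) ≤ N / L ^ U / 2 := by
      rw [pow_succ]
      have h3 : 2 * ((N : ℝ) / (L ^ U * L)) = N / L ^ U / 2 * (4 / L) := by
        field_simp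
        ring
      rw [h3]
      apply mul_le_of_le_one_right (by positivity)
      rw [div_le_one hL0]
      linarith
    linarith
  · rw [hEx, mem_union, not_or, mem_range, mem_filter, not_and] at hnE
    obtain ⟨hnE1, hnE2⟩ := hnE
    push Not at hnE1 hnE2
    have hnN := (mem_Icc.1 hn).2
    have hnI : n ∈ Icc n1 N := mem_Icc.2 ⟨hnE1, hnN⟩
    have hT := hnE2 hnI
    rw [hTt] at hT
    simp only at hT
    obtain ⟨h2, h3, h4⟩ := hval n hnE1 hnN
    obtain ⟨h5, h6⟩ := hYv n hnI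
    have hg1 : ∑ m ∈ Ioc (v n) (v n + A), g m = ∑ m ∈ (Ioc (v n) (v n + A)).filter (fun m => ¬ Nat.Prime m), vonMangoldt m := by
      rw [sum_filter, hg]
      apply sum_congr rfl
      intro m _
      by_cases h : Nat.Prime m <;> simp [h]
    obtain ⟨W, hW⟩ : ∃ W : ℝ, W = ∑ y ∈ Icc 1 A, fi (Fb F b) n y := ⟨_, rfl⟩
    have hW2 : W = ∑ y ∈ Icc 1 A, if Nat.Prime (v n + y) then (1 : ℝ) else 0 := by
      rw [hW]
      apply sum_congr rfl
      intro y _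
      unfold fi Fb
      rw [Polynomial.eval_add, Polynomial.eval_C, ← h2]
      have h7 : (((v n : ℕ) : ℤ) + (y : ℤ)).toNat = v n + y := by
        have : ((v n : ℕ) : ℤ) + (y : ℤ) = ((v n + y : ℕ) : ℤ) := by push_cast; ring
        rw [this, Int.toNat_natCast]
      rw [h7]
    have hvl0 : 0 < N * P / L ^ u := by positivity
    have hlow : ∀ m ∈ Ioc (v n) (v n + A), (1 - ρ1) * (d * L) ≤ Real.log m := by
      intro m hm
      rw [mem_Ioc] at hm
      have h7 : N * P / (4 * L ^ u) ≤ (m : ℝ) := by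
        have h8 : (v n : ℝ) ≤ m := by exact_mod_cast hm.1.le
        have h9 : N * P / (4 * L ^ u) = N * P / L ^ u / 4 := by field_simp
        rw [h9]
        linarith
      have h8 : Real.log (N * P / (4 * L ^ u)) ≤ Real.log m := Real.log_le_log (by positivity) h7
      refine le_trans ?_ h8
      rw [Real.log_div (by positivity) (by positivity), ← hNP, Real.log_pow, ← hL]
      have h9 : Real.log (4 * L ^ u) ≤ ρ1 * L := by
        have h10 := Real.log_le_log (by positivity) g5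
        rw [Real.log_rpow hN0, ← hL] at h10
        exact h10
      have h10 : ρ1 * L ≤ ρ1 * (d * L) := by
        apply mul_le_mul_of_nonneg_left _ hρ10.le
        exact le_mul_of_one_le_left hL0.le (by linarith)
      linarith
    have hhigh : ∀ m ∈ Ioc (v n) (v n + A), Real.log m ≤ (1 + ρ1) * (d * L) := by
      intro m hm
      rw [mem_Ioc] at hm
      have h7 : (m : ℝ) ≤ X := by
        have h8 : (m : ℝ) ≤ v n + A := by exact_mod_cast hm.2
        rw [hXr]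
        linarith
      have h8 : Real.log m ≤ Real.log X := by
        apply Real.log_le_log _ h7
        exact_mod_cast (by omega : 0 < m)
      refine h8.trans ?_
      rw [hlogX]
      have h9 : 36 * ℓn ≤ ρ1 * L := by
        rw [div_le_iff₀ hρ10] at hLρ
        linarith
      have h10 : ρ1 * L ≤ ρ1 * (d * L) := by
        apply mul_le_mul_of_nonneg_left _ hρ10.le
        exact le_mul_of_one_le_left hL0.le (by linarith)
      linarith
    rw [hg1] at hT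
    simp only [← hem] at hT
    rw [← hW]
    exact one_n (v n) A Y hA0 hY1 h5 hYAn W ρ1 ρ (d * L) (by positivity) hρ10 hρ18 hρ1ρ hYle hlow hhigh hW2 hT

end Run7.h462.PA
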