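import Pool.Agent.Run7.h462.PA.Stm

/-!
# Project PA, piece AA, first part: the polynomial, windows
-/

set_option autoImplicit false

namespace Run7.h462.PA

open Finset Filter Topology
open scoped Polynomial

lemma tendsto_ratio (P : ℝ[X]) (hP : P ≠ 0) :
    Tendsto (fun x : ℝ => P.eval x / x ^ P.natDegree) atTop (𝓝 P.leadingCoeff) := by
  have h1 := Polynomial.div_tendsto_leadingCoeff_div_of_degree_eq P (Polynomial.X ^ P.natDegree)
    (by rw [Polynomial.degree_X_pow, Polynomial.degree_eq_natDegree hP])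
  simpa using h1

/-- the size of the values of a polynomial and of the differences -/
lemma poly_large (F : ℤ[X]) (hd : 2 ≤ F.natDegree) (hl : 0 < F.leadingCoeff) :
    ∃ n0 : ℕ, 1 ≤ n0 ∧ ∀ n : ℕ, n0 ≤ n → (n : ℝ) ^ F.natDegree / 2 ≤ ((F.eval (n : ℤ) : ℤ) : ℝ) ∧
      ((F.eval (n : ℤ) : ℤ) : ℝ) ≤ 2 * F.leadingCoeff * (n : ℝ) ^ F.natDegree ∧
      (n : ℝ) ^ (F.natDegree - 1) ≤ ((F.eval ((n + 1 : ℕ) : ℤ) : ℤ) : ℝ) - ((F.eval (n : ℤ) : ℤ) : ℝ) := by
  obtain ⟨P, hP⟩ : ∃ P : ℝ[X], P = F.map (Int.castRingHom ℝ) := ⟨_, rfl⟩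
  have hinj : Function.Injective (Int.castRingHom ℝ) := Int.cast_injective
  have hPd : P.natDegree = F.natDegree := by rw [hP]; exact Polynomial.natDegree_map_eq_of_injective hinj F
  have hPl : P.leadingCoeff = (F.leadingCoeff : ℝ) := by
    rw [hP, Polynomial.leadingCoeff_map_of_injective hinj]
    simp
  have hl1 : (1 : ℝ) ≤ F.leadingCoeff := by exact_mod_cast hl
  have hP0 : P ≠ 0 := by
    intro h
    rw [h, Polynomial.leadingCoeff_zero] at hPl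
    linarith
  have hPe : ∀ n : ℕ, P.eval (n : ℝ) = ((F.eval (n : ℤ) : ℤ) : ℝ) := by
    intro n
    rw [hP, Polynomial.eval_natCast_map]
    simp
  have t1 := tendsto_ratio P hP0
  rw [hPl] at t1
  have e1 := (t1.eventually (lt_mem_nhds (show ((F.leadingCoeff : ℝ) / 2) < F.leadingCoeff by linarith))).and
    (t1.eventually (gt_mem_nhds (show (F.leadingCoeff : ℝ) < 2 * F.leadingCoeff by linarith)))
  -- derivative
  obtain ⟨D, hD⟩ : ∃ D : ℝ[X], D = Polynomial.derivative P := ⟨_, rfl⟩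
  have hDd : D.natDegree = F.natDegree - 1 := by
    rw [hD, Polynomial.natDegree_derivative, hPd]
  have hDl : D.leadingCoeff = (F.leadingCoeff : ℝ) * F.natDegree := by
    rw [Polynomial.leadingCoeff, hDd, hD, Polynomial.coeff_derivative]
    have h1 : F.natDegree - 1 + 1 = F.natDegree := by omega
    rw [h1, ← hPd, ← hPl, Polynomial.leadingCoeff]
    have h2 : ((P.natDegree - 1 : ℕ) : ℝ) + 1 = P.natDegree := by
      rw [Nat.cast_sub (by omega)]
      simp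
    rw [h2]
  have hd2 : (2 : ℝ) ≤ F.natDegree := by exact_mod_cast hd
  have hDl1 : 2 ≤ D.leadingCoeff := by rw [hDl]; nlinarith
  have hD0 : D ≠ 0 := by
    intro h
    rw [h, Polynomial.leadingCoeff_zero] at hDl1
    linarith
  have t2 := tendsto_ratio D hD0
  have e2 := t2.eventually (lt_mem_nhds (show (1 : ℝ) < D.leadingCoeff by linarith))
  obtain ⟨x0, hx0⟩ := eventually_atTop.1 ((e1.and e2).and (eventually_ge_atTop (1 : ℝ)))
  obtain ⟨n0, hn0⟩ := exists_nat_ge x0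
  refine ⟨n0 + 1, by omega, fun n hn => ?_⟩
  have hnx : x0 ≤ (n : ℝ) := hn0.trans (by exact_mod_cast (by omega : n0 ≤ n))
  have hn1 : (1 : ℝ) ≤ n := by exact_mod_cast (by omega : 1 ≤ n)
  have hn00 : (0 : ℝ) < n := by linarith
  obtain ⟨⟨⟨h1, h2⟩, _⟩, _⟩ := hx0 n hnx
  rw [hPd, hPe] at h1 h2
  have hnd : (0 : ℝ) < (n : ℝ) ^ F.natDegree := by positivity
  rw [lt_div_iff₀ hnd] at h1
  rw [div_lt_iff₀ hnd] at h2
  refine ⟨by nlinarith, h2.le, ?_⟩
  have hderiv : ∀ x : ℝ, (n : ℝ) ^ (F.natDegree - 1) ≤ D.eval x ∨ x < n := by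
    intro x
    by_cases hx : x < n
    · exact Or.inr hx
    · left
      push Not at hx
      obtain ⟨⟨_, h3⟩, _⟩ := hx0 x (hnx.trans hx)
      have hx0' : 0 < x := by linarith
      rw [hDd, lt_div_iff₀ (by positivity), one_mul] at h3
      exact (pow_le_pow_left₀ hn00.le hx _).trans h3.le
  obtain ⟨c, hc, hc2⟩ := exists_deriv_eq_slope (fun x => P.eval x) (show (n : ℝ) < ((n + 1 : ℕ) : ℝ) by push_cast; linarith)
    P.continuous.continuousOn P.differentiable.differentiableOn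
  rw [Polynomial.deriv, ← hD] at hc2
  have h5 : (((n + 1 : ℕ) : ℝ) - n) = 1 := by push_cast; ring
  rw [h5, div_one, hPe, hPe] at hc2
  rw [← hc2]
  rcases hderiv c with h | h
  · exact h
  · exact absurd h (not_lt.2 hc.1.le)

/-- windows from above -/
lemma win_up (f : ℕ → ℝ) (hf : ∀ n, 0 ≤ f n) (v A Y : ℕ) (hYv : Y ≤ v) :
    Y * ∑ n ∈ Ioc v (v + A), f n ≤ ∑ m ∈ Ioc (v - Y) (v + A), ∑ n ∈ Ioc m (m + Y), f n := by
  have h1 : (Y : ℝ) * ∑ n ∈ Ioc v (v + A), f n = ∑ n ∈ Ioc v (v + A), ∑ m ∈ Ico (n - Y) n, f n := by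
    rw [mul_sum]
    apply sum_congr rfl
    intro n hn
    rw [mem_Ioc] at hn
    rw [sum_const, Nat.card_Ico, nsmul_eq_mul]
    congr 2
    omega
  rw [h1, Finset.sum_comm' (s := Ioc v (v + A)) (t := fun n => Ico (n - Y) n) (s' := fun m => (Ioc m (m + Y)).filter (fun n => n ∈ Ioc v (v + A)))
    (t' := Ioc (v - Y) (v + A))]
  · apply sum_le_sum
    intro m _
    exact sum_le_sum_of_subset_of_nonneg (filter_subset _ _) (fun n _ _ => hf n)
  · intro n m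
    simp only [mem_Ioc, mem_Ico, mem_filter]
    omega

/-- windows from below -/
lemma win_low (f : ℕ → ℝ) (hf : ∀ n, 0 ≤ f n) (v A Y : ℕ) (hYA : Y ≤ A) :
    ∑ m ∈ Icc v (v + A - Y), ∑ n ∈ Ioc m (m + Y), f n ≤ Y * ∑ n ∈ Ioc v (v + A), f n := by
  rw [Finset.sum_comm' (s := Icc v (v + A - Y)) (t := fun m => Ioc m (m + Y))
    (s' := fun n => (Icc v (v + A - Y)).filter (fun m => n ∈ Ioc m (m + Y))) (t' := Ioc v (v + A))]
  · rw [mul_sum]
    apply sum_le_sum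
    intro n hn
    rw [sum_const, nsmul_eq_mul]
    apply mul_le_mul_of_nonneg_right _ (hf n)
    have h1 : (Icc v (v + A - Y)).filter (fun m => n ∈ Ioc m (m + Y)) ⊆ Ico (n - Y) n := by
      intro m hm
      rw [mem_filter, mem_Ioc] at hm
      rw [mem_Ico]
      omega
    have h2 := card_le_card h1
    rw [Nat.card_Ico] at h2
    have h3 : #((Icc v (v + A - Y)).filter (fun m => n ∈ Ioc m (m + Y))) ≤ Y := by omega
    exact_mod_cast h3
  · intro m n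
    simp only [mem_Ioc, mem_Icc, mem_filter]
    omega

/-- both with the error terms -/
lemma win_both (f : ℕ → ℝ) (hf : ∀ n, 0 ≤ f n) (v A Y : ℕ) (hY : 1 ≤ Y) (hYv : Y ≤ v) (hYA : Y ≤ A) :
    |∑ n ∈ Ioc v (v + A), f n - A| ≤ Y + (∑ m ∈ Ioc (v - Y) (v + A), |∑ n ∈ Ioc m (m + Y), f n - Y|) / Y := by
  obtain ⟨T, hT⟩ : ∃ T : ℝ, T = ∑ m ∈ Ioc (v - Y) (v + A), |∑ n ∈ Ioc m (m + Y), f n - Y| := ⟨_, rfl⟩
  rw [← hT]
  have hY0 : (0 : ℝ) < Y := by exact_mod_cast hY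
  have h1 := win_up f hf v A Y hYv
  have h2 := win_low f hf v A Y hYA
  obtain ⟨S, hS⟩ : ∃ S : ℝ, S = ∑ n ∈ Ioc v (v + A), f n := ⟨_, rfl⟩
  rw [← hS] at h1 h2 ⊢
  have h3 : ∑ m ∈ Ioc (v - Y) (v + A), ∑ n ∈ Ioc m (m + Y), f n ≤ (A + Y) * Y + T := by
    have h4 : ∀ m ∈ Ioc (v - Y) (v + A), ∑ n ∈ Ioc m (m + Y), f n ≤ Y + |∑ n ∈ Ioc m (m + Y), f n - Y| := by
      intro m _
      have := le_abs_self (∑ n ∈ Ioc m (m + Y), f n - Y)
      linarith
    refine (sum_le_sum h4).trans ?_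
    rw [sum_add_distrib, ← hT, sum_const, Nat.card_Ioc, nsmul_eq_mul]
    have h5 : ((v + A - (v - Y) : ℕ) : ℝ) = A + Y := by
      have : v + A - (v - Y) = A + Y := by omega
      rw [this]
      push_cast
      ring
    rw [h5]
  have h6 : (A - Y) * Y - T ≤ ∑ m ∈ Icc v (v + A - Y), ∑ n ∈ Ioc m (m + Y), f n := by
    have h4 : ∀ m ∈ Icc v (v + A - Y), Y - |∑ n ∈ Ioc m (m + Y), f n - Y| ≤ ∑ n ∈ Ioc m (m + Y), f n := by
      intro m _
      have := neg_abs_le (∑ n ∈ Ioc m (m + Y), f n - Y)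
      linarith
    refine le_trans ?_ (sum_le_sum h4)
    rw [sum_sub_distrib, sum_const, Nat.card_Icc, nsmul_eq_mul]
    have h5 : ((v + A - Y + 1 - v : ℕ) : ℝ) = A - Y + 1 := by
      have : v + A - Y + 1 - v = A - Y + 1 := by omega
      rw [this, Nat.cast_add, Nat.cast_sub hYA]
      push_cast
      ring
    rw [h5]
    have h7 : ∑ m ∈ Icc v (v + A - Y), |∑ n ∈ Ioc m (m + Y), f n - Y| ≤ T := by
      rw [hT]
      apply sum_le_sum_of_subset_of_nonneg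
      · intro m hm
        rw [mem_Icc] at hm
        rw [mem_Ioc]
        omega
      · intro m _ _
        exact abs_nonneg _
    nlinarith
  rw [abs_le]
  constructor
  · have h8 : (A - Y) * Y - T ≤ Y * S := h6.trans h2
    have h9 : -(Y + T / Y) * Y ≤ (S - A) * Y := by
      have : -(Y + T / Y) * Y = -(Y * Y) - T := by
        field_simp
        ring
      rw [this]
      nlinarith
    exact le_of_mul_le_mul_right h9 hY0
  · have h8 : Y * S ≤ (A + Y) * Y + T := h1.trans h3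
    have h9 : (S - A) * Y ≤ (Y + T / Y) * Y := by
      have : (Y + T / Y) * Y = Y * Y + T := by field_simp
      rw [this]
      nlinarith
    exact le_of_mul_le_mul_right h9 hY0

/-- the gaps of the values -/
lemma gap_iter (F : ℤ[X]) (n0 n1 : ℕ) (h01 : n0 ≤ n1) (e : ℕ)
    (hg : ∀ n : ℕ, n0 ≤ n → (n : ℝ) ^ e ≤ ((F.eval ((n + 1 : ℕ) : ℤ) : ℤ) : ℝ) - ((F.eval (n : ℤ) : ℤ) : ℝ)) (n j : ℕ) (hn : n1 ≤ n) :
    (j : ℝ) * (n1 : ℝ) ^ e ≤ ((F.eval ((n + j : ℕ) : ℤ) : ℤ) : ℝ) - ((F.eval (n : ℤ) : ℤ) : ℝ) := by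
  induction j with
  | zero => simp
  | succ j ih =>
    have h1 := hg (n + j) (by omega)
    have h2 : (n1 : ℝ) ^ e ≤ ((n + j : ℕ) : ℝ) ^ e := by
      apply pow_le_pow_left₀ (Nat.cast_nonneg _)
      exact_mod_cast (by omega : n1 ≤ n + j)
    have h3 : n + j + 1 = n + (j + 1) := by ring
    rw [h3] at h1
    push_cast at h1 h2 ih ⊢
    nlinarith

/-- the number of the `n` whose values are in an interval -/
lemma mult (F : ℤ[X]) (n0 n1 : ℕ) (h01 : n0 ≤ n1) (hn1 : 1 ≤ n1) (e : ℕ)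
    (hg : ∀ n : ℕ, n0 ≤ n → (n : ℝ) ^ e ≤ ((F.eval ((n + 1 : ℕ) : ℤ) : ℤ) : ℝ) - ((F.eval (n : ℤ) : ℤ) : ℝ)) (N : ℕ) (lo hi : ℝ)
    (hlh : lo ≤ hi) (T : Finset ℕ) (hT : ∀ n ∈ T, n1 ≤ n ∧ lo ≤ ((F.eval (n : ℤ) : ℤ) : ℝ) ∧ ((F.eval (n : ℤ) : ℤ) : ℝ) ≤ hi) :
    (#T : ℝ) ≤ (hi - lo) / (n1 : ℝ) ^ e + 1 := by
  have hg0 : (0 : ℝ) < (n1 : ℝ) ^ e := by
    have : (0 : ℝ) < n1 := by exact_mod_cast hn1
    positivity
  rcases T.eq_empty_or_nonempty with h | h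
  · rw [h, card_empty, Nat.cast_zero]
    have : 0 ≤ (hi - lo) / (n1 : ℝ) ^ e := div_nonneg (by linarith) hg0.le
    linarith
  · obtain ⟨n, hn⟩ : ∃ n, n = T.min' h := ⟨_, rfl⟩
    have hnT : n ∈ T := by rw [hn]; exact T.min'_mem h
    obtain ⟨J, hJ⟩ : ∃ J : ℕ, J = ⌊(hi - lo) / (n1 : ℝ) ^ e⌋₊ := ⟨_, rfl⟩
    have hsub : T ⊆ Icc n (n + J) := by
      intro m hm
      have h1 : n ≤ m := by rw [hn]; exact T.min'_le m hm
      rw [mem_Icc]
      refine ⟨h1, ?_⟩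
      obtain ⟨j, hj⟩ : ∃ j, m = n + j := ⟨m - n, by omega⟩
      have h2 := gap_iter F n0 n1 h01 e hg n j (hT n hnT).1
      rw [← hj] at h2
      have h3 := (hT m hm).2.2
      have h4 := (hT n hnT).2.1
      have h5 : (j : ℝ) ≤ (hi - lo) / (n1 : ℝ) ^ e := by
        rw [le_div_iff₀ hg0]
        linarith
      have h6 : j ≤ J := by rw [hJ]; exact Nat.le_floor h5
      omega
    have h7 := card_le_card hsub
    rw [Nat.card_Icc] at h7
    have h8 : (#T : ℝ) ≤ J + 1 := by exact_mod_cast (by omega : #T ≤ J + 1)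
    have h9 : (J : ℝ) ≤ (hi - lo) / (n1 : ℝ) ^ e := by
      rw [hJ]
      exact Nat.floor_le (div_nonneg (by linarith) hg0.le)
    linarith

end Run7.h462.PA
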