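import Pool.Agent.Run7.h462.PA.Fin

/-! Project PA: assembly, the parameters. -/

set_option autoImplicit false

namespace Run7.h462.PA

open Finset Filter Topology
open Pool.Agent.H373R2.T7 (pz Vz)
open Pool.Agent.TH204.WR (rho)
open Run7.h462.KT (Q sh inj ov mem_inj card_inj_le sh_injective count_goodI fibre)
open Run7.h757.BP.Fin (rpow_ge_log)
open Run7.h824.PA (VG_pos VG_le_one VG_nonneg gG_nonneg)
open scoped Polynomial

variable {k : ℕ}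

/-- the numbers `x` and `w` -/
lemma xw {d B E2 : ℕ} {L P : ℝ} {N A x w : ℕ} (hd : 2 ≤ d) (hE2 : 2 ≤ E2) (hL : L = Real.log N) (hN : 3 ≤ N) (hP : P = (N : ℝ) ^ (d - 1))
    (hL8 : 8 ≤ L) (hLE : 2 * (2 * (d : ℝ)) ^ E2 ≤ L) (h3 : 3 * L ^ B ≤ (N : ℝ) ^ (1 / 2 : ℝ)) (hA1 : P ≤ A * L ^ B)
    (hA2 : (A : ℝ) ≤ P * L ^ B) (hx : x = ⌈2 * (P * L ^ B)⌉₊) (hw : w = ⌊Real.log x ^ E2⌋₊) :
    (N : ℝ) ≤ x ∧ L ≤ Real.log x ∧ Real.log x ≤ d * L ∧ (x : ℝ) ≤ 3 * (P * L ^ B) ∧ Real.log A ≤ w ∧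
      (w : ℝ) ≤ Real.log A ^ (E2 + 1) ∧ (w : ℝ) ≤ (d * L) ^ E2 ∧ 2 ≤ w ∧ (N : ℝ) ^ (1 / 2 : ℝ) ≤ A := by
  have hN0 : (0 : ℝ) < N := by exact_mod_cast (by omega : 0 < N)
  have hN1 : (1 : ℝ) ≤ N := by exact_mod_cast (by omega : 1 ≤ N)
  have hL0 : 0 < L := by linarith
  have hLB1 : 1 ≤ L ^ B := one_le_pow₀ (by linarith)
  have hLB : 0 < L ^ B := by linarith
  have hdr : (2 : ℝ) ≤ d := by exact_mod_cast hd
  have hPN : (N : ℝ) ≤ P := by
    rw [hP]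
    calc (N : ℝ) = (N : ℝ) ^ 1 := (pow_one _).symm
      _ ≤ _ := pow_le_pow_right₀ hN1 (by omega)
  have hP0 : 0 < P := by linarith
  have hPB : P ≤ P * L ^ B := le_mul_of_one_le_right hP0.le hLB1
  have hx1 : 2 * (P * L ^ B) ≤ x := by rw [hx]; exact Nat.le_ceil _
  have hx2 : (x : ℝ) ≤ 3 * (P * L ^ B) := by
    have h1 : (x : ℝ) < 2 * (P * L ^ B) + 1 := by rw [hx]; exact Nat.ceil_lt_add_one (by positivity)
    linarith
  have hxN : (N : ℝ) ≤ x := by linarith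
  have hx0 : (0 : ℝ) < x := by linarith
  have hlx1 : L ≤ Real.log x := by rw [hL]; exact Real.log_le_log hN0 hxN
  have hNd : (N : ℝ) * P = (N : ℝ) ^ d := by
    rw [hP, ← pow_succ']
    congr 1
    omega
  have hhalf : (N : ℝ) ^ (1 / 2 : ℝ) ≤ N := by
    calc (N : ℝ) ^ (1 / 2 : ℝ) ≤ (N : ℝ) ^ (1 : ℝ) := Real.rpow_le_rpow_of_exponent_le hN1 (by norm_num)
      _ = N := Real.rpow_one _
  have hlx2 : Real.log x ≤ d * L := by
    have h1 : (x : ℝ) ≤ (N : ℝ) ^ d := by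
      rw [← hNd]
      calc (x : ℝ) ≤ 3 * (P * L ^ B) := hx2
        _ = (3 * L ^ B) * P := by ring
        _ ≤ N * P := by
            apply mul_le_mul_of_nonneg_right _ hP0.le
            exact h3.trans hhalf
    have h2 := Real.log_le_log hx0 h1
    rwa [Real.log_pow, ← hL] at h2
  have hAhalf : (N : ℝ) ^ (1 / 2 : ℝ) ≤ A := by
    have h1 : (N : ℝ) ^ (1 / 2 : ℝ) * L ^ B ≤ A * L ^ B := by
      refine le_trans ?_ hA1
      refine le_trans ?_ hPN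
      have h2 : L ^ B ≤ (N : ℝ) ^ (1 / 2 : ℝ) := by linarith
      calc (N : ℝ) ^ (1 / 2 : ℝ) * L ^ B ≤ (N : ℝ) ^ (1 / 2 : ℝ) * (N : ℝ) ^ (1 / 2 : ℝ) := by gcongr
        _ = N := by rw [← Real.rpow_add hN0]; norm_num
    exact le_of_mul_le_mul_right h1 hLB
  have hA0 : (0 : ℝ) < A := lt_of_lt_of_le (by positivity) hAhalf
  have hlA : L / 2 ≤ Real.log A := by
    have h1 := Real.log_le_log (by positivity) hAhalf
    rw [Real.log_rpow hN0, ← hL] at h1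
    linarith
  have hAx : (A : ℝ) ≤ x := by linarith
  have hlAx : Real.log A ≤ Real.log x := Real.log_le_log hA0 hAx
  have hwle : (w : ℝ) ≤ Real.log x ^ E2 := by
    rw [hw]
    exact Nat.floor_le (by positivity)
  have hlx0 : 0 < Real.log x := by linarith
  have hwge : Real.log x ≤ w := by
    have h1 : Real.log x ^ E2 < w + 1 := by rw [hw]; exact Nat.lt_floor_add_one _
    have h2 : Real.log x * Real.log x ≤ Real.log x ^ E2 := by
      calc Real.log x * Real.log x = Real.log x ^ 2 := by ring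
        _ ≤ _ := pow_le_pow_right₀ (by linarith) hE2
    nlinarith
  have hlA0 : 0 < Real.log A := by linarith
  refine ⟨hxN, hlx1, hlx2, hx2, hlAx.trans hwge, ?_, ?_, ?_, hAhalf⟩
  · refine hwle.trans ?_
    have h1 : Real.log x ≤ 2 * d * Real.log A := by nlinarith
    calc Real.log x ^ E2 ≤ (2 * d * Real.log A) ^ E2 := pow_le_pow_left₀ hlx0.le h1 _
      _ = (2 * (d : ℝ)) ^ E2 * Real.log A ^ E2 := by rw [mul_pow]
      _ ≤ Real.log A * Real.log A ^ E2 := by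
          apply mul_le_mul_of_nonneg_right _ (by positivity)
          linarith
      _ = Real.log A ^ (E2 + 1) := by rw [pow_succ]; ring
  · exact hwle.trans (pow_le_pow_left₀ hlx0.le hlx2 _)
  · have h1 : (2 : ℝ) ≤ w := by linarith
    exact_mod_cast h1

open Classical in
theorem core (G F : ℤ[X]) (k : ℕ) (hk : 1 ≤ k) (hd2 : 2 ≤ F.natDegree) (hNF : NF G)
    (hFM : S_FMG F k) (hUP : S_UPG G F k) (hSQ : S_SQG G F k) (hAV : S_AVG G F k) (hCL : S_CLG G F k) (hVG : S_VGR G) :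
    S_PA G F k := by
  intro B κ δ η hκ hκ1 hδ hη hη1
  have hdR2 : (2 : ℝ) ≤ F.natDegree := by exact_mod_cast hd2
  obtain ⟨D1, hD1⟩ : ∃ D1 : ℝ, D1 = 1 / (F.natDegree : ℝ) := ⟨_, rfl⟩
  have hD10 : 0 < D1 := by rw [hD1]; positivity
  have hD12 : D1 ≤ 1 / 2 := by
    rw [hD1]
    exact one_div_le_one_div_of_le (by norm_num) hdR2
  obtain ⟨D, hD⟩ : ∃ D : ℝ, D = D1 ^ k := ⟨_, rfl⟩
  have hD0 : 0 < D := by rw [hD]; positivity
  have hD2 : D ≤ 1 / 2 := by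
    rw [hD]
    exact (pow_le_of_le_one hD10.le (by linarith) (by omega)).trans hD12
  obtain ⟨cV, hcV, _, e, hVG⟩ := hVG
  obtain ⟨C1, hC1, κ1, hκ10, hκ110, hκ1κ, NU, hUP⟩ := hUP B κ hκ
  obtain ⟨θ, hθ⟩ : ∃ θ : ℝ, θ = η * D / 16 := ⟨_, rfl⟩
  have hθ0 : 0 < θ := by rw [hθ]; positivity
  obtain ⟨E1, hE1⟩ := hCL (2 * B + k + 1) θ hθ0
  obtain ⟨E2, hE2⟩ : ∃ E2 : ℕ, E2 = E1 + 4 := ⟨_, rfl⟩
  obtain ⟨X1, hX1⟩ := hE1 E2 (by omega)
  obtain ⟨C3, hC3, NS, hSQ⟩ := hSQ (E2 + 1)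
  obtain ⟨Cd, hCd⟩ : ∃ Cd : ℝ, Cd = δ * cV * κ1 ^ e := ⟨_, rfl⟩
  have hCd0 : 0 < Cd := by rw [hCd]; positivity
  obtain ⟨C2, hC2⟩ : ∃ C2 : ℝ, C2 = 2 * C1 / (Cd * κ1 ^ k) := ⟨_, rfl⟩
  have hC20 : 0 < C2 := by rw [hC2]; positivity
  obtain ⟨NA, HA, hAV⟩ := hAV (E2 + 1) θ hθ0
  obtain ⟨c0, B1, hc0, hB10, hFM⟩ := hFM θ hθ0
  obtain ⟨NF, hFM⟩ := hFM B (e + 1)
  obtain ⟨c1, hc1⟩ : ∃ c1 : ℝ, c1 = θ / (2 * C2) := ⟨_, rfl⟩
  have hc10 : 0 < c1 := by rw [hc1]; positivity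
  obtain ⟨b2, hb2⟩ : ∃ b2 : ℝ, b2 = min c0 1 := ⟨_, rfl⟩
  have hb20 : 0 < b2 := by rw [hb2]; exact lt_min hc0 one_pos
  have hb21 : b2 ≤ 1 := by rw [hb2]; exact min_le_right _ _
  have hb2c : b2 ≤ c0 := by rw [hb2]; exact min_le_left _ _
  obtain ⟨c2, hc2⟩ : ∃ c2 : ℝ, c2 = η ^ 2 * D ^ 2 / (4 * C2 ^ 2 * C3) := ⟨_, rfl⟩
  have hc20 : 0 < c2 := by rw [hc2]; positivity
  obtain ⟨cc, hcc⟩ : ∃ cc : ℝ, cc = c2 * (b2 / 2) ^ (k - 1) := ⟨_, rfl⟩
  have hcc0 : 0 < cc := by rw [hcc]; positivity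
  -- largeness
  obtain ⟨M1, hM1⟩ := eventually_atTop.1 (rpow_ge_log κ1 hκ10 E2 ((F.natDegree : ℝ) ^ E2) (by positivity))
  obtain ⟨M2, hM2⟩ := eventually_atTop.1 (rpow_ge_log (1 / (2 * (F.natDegree : ℝ))) (by positivity) (k + (e + 1)) (C1 / θ) (by positivity))
  obtain ⟨M3, hM3⟩ := eventually_atTop.1 ((Real.tendsto_log_atTop.comp (tendsto_natCast_atTop_atTop (R := ℝ))).eventually_ge_atTop
    (2 * (2 * (F.natDegree : ℝ)) ^ E2 + 3 * k / θ + 8 + HA + 1 / (δ * cV * Real.log 2 ^ e * VG G 2)))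
  obtain ⟨M4, hM4⟩ := eventually_atTop.1 (rpow_ge_log (1 / 2) (by norm_num) B 3 (by norm_num))
  obtain ⟨M5, hM5⟩ := eventually_atTop.1 (rpow_ge_log (1 / 2) (by norm_num) 0 ((NS : ℝ) + NA + 1) (by positivity))
  refine ⟨E2 + 1, min c1 cc, 2 * (B1 + 1) / b2, lt_min hc10 hcc0, by positivity,
    NU + NF + X1 + M1 + M2 + M3 + M4 + M5 + 10, fun N hN A H0 b hA1 hA2 hb hH01 hH02 S hSN hSG hSd => ?_⟩
  have g1 := hM1 N (by omega)
  have g2 := hM2 N (by omega)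
  have g3 := hM3 N (by omega)
  have g4 := hM4 N (by omega)
  have g5 := hM5 N (by omega)
  simp only [Function.comp] at g3
  obtain ⟨L, hL⟩ : ∃ L : ℝ, L = Real.log N := ⟨_, rfl⟩
  have hV2 := VG_pos hNF 2
  have hlog2 : 0 < Real.log 2 := Real.log_pos (by norm_num)
  have hV2' : 0 ≤ 1 / (δ * cV * Real.log 2 ^ e * VG G 2) := by positivity
  have h3kθ : 0 ≤ 3 * (k : ℝ) / θ := by positivity
  have hHA0 : (0 : ℝ) ≤ HA := Nat.cast_nonneg _
  have h2dE : 0 ≤ 2 * (2 * (F.natDegree : ℝ)) ^ E2 := by positivity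
  have hNR : (10 : ℝ) ≤ N := by exact_mod_cast (by omega : 10 ≤ N)
  have hN0 : (0 : ℝ) < N := by linarith
  have hN1 : (1 : ℝ) ≤ N := by linarith
  rw [← hL] at g1 g2 g3 g4 g5
  have hL8 : 8 ≤ L := by linarith
  have hL0 : 0 < L := by linarith
  obtain ⟨P, hP⟩ : ∃ P : ℝ, P = (N : ℝ) ^ (F.natDegree - 1) := ⟨_, rfl⟩
  have hP0 : 0 < P := by rw [hP]; positivity
  obtain ⟨x, hx⟩ : ∃ x : ℕ, x = ⌈2 * (P * L ^ B)⌉₊ := ⟨_, rfl⟩
  obtain ⟨w, hw⟩ : ∃ w : ℕ, w = ⌊Real.log x ^ E2⌋₊ := ⟨_, rfl⟩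
  obtain ⟨hxN, hlx1, hlx2, hx2, hwA1, hwA2, hwdL, hw2, hAhalf⟩ := xw hd2 (by omega) hL (by omega) hP hL8 (by linarith) g4
    (by rw [hP, hL]; exact hA1) (by rw [hP, hL]; exact hA2) hx hw
  have hLB0 : 0 < L ^ B := by positivity
  have hA0 : (0 : ℝ) < A := lt_of_lt_of_le (by positivity) hAhalf
  have hABig : NS + NA + 1 ≤ A := by
    have h1 : ((NS + NA + 1 : ℕ) : ℝ) ≤ A := by
      rw [pow_zero, mul_one] at g5
      push_cast
      exact g5.trans hAhalf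
    exact_mod_cast h1
  -- `H`
  obtain ⟨H, hH⟩ : ∃ H : ℕ, H = ⌊b2 * H0⌋₊ := ⟨_, rfl⟩
  have hH0R : (0 : ℝ) ≤ H0 := Nat.cast_nonneg _
  have hHle : (H : ℝ) ≤ b2 * H0 := by rw [hH]; exact Nat.floor_le (by positivity)
  have hbH : 2 * (B1 + 1) * L ≤ b2 * H0 := by
    rw [← hL, div_mul_eq_mul_div, div_le_iff₀ hb20] at hH01
    linarith
  have hBL : 0 ≤ B1 * L := by positivity
  have hHge2 : b2 * H0 / 2 ≤ H := by
    have h1 : b2 * H0 < H + 1 := by rw [hH]; exact Nat.lt_floor_add_one _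
    nlinarith
  have hHB : B1 * L ≤ H := by nlinarith
  have hHL : L ≤ H := by nlinarith
  have hHpos : (0 : ℝ) < H := by linarith
  have hH02r : (H0 : ℝ) ≤ A := by exact_mod_cast hH02
  have hHc : (H : ℝ) ≤ c0 * A := by
    calc (H : ℝ) ≤ b2 * H0 := hHle
      _ ≤ c0 * A := by gcongr
  have hHH0r : (H : ℝ) ≤ H0 := by
    calc (H : ℝ) ≤ b2 * H0 := hHle
      _ ≤ 1 * H0 := by gcongr
      _ = H0 := one_mul _
  have hHH0 : H ≤ H0 := by exact_mod_cast hHH0r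
  have hHA' : H ≤ A := hHH0.trans hH02
  have hHHA : HA ≤ H := by
    have h1 : (HA : ℝ) ≤ H := by linarith
    exact_mod_cast h1
  -- the sieve
  obtain ⟨z0, hz02, hz0κ, hz010, hz0κ2, hz0P⟩ := hUP N (by omega)
  obtain ⟨hdens1, hdens2⟩ := dens hNF hcV hVG hκ hκ1 hκ10 hδ hL (by omega) hz02 hz0κ hz0κ2 hSd (by linarith)
  rw [← hCd] at hdens1
  have hwz0 : w ≤ z0 := by
    have h1 : (w : ℝ) ≤ z0 := by
      refine hwdL.trans (le_trans ?_ (g1.trans hz0κ))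
      rw [mul_pow]
    exact_mod_cast h1
  have hz03 : z0 ^ 3 ≤ x := by
    have h1 : ((z0 ^ 3 : ℕ) : ℝ) ≤ x := by
      push_cast
      calc (z0 : ℝ) ^ 3 ≤ ((N : ℝ) ^ (1 / 10 : ℝ)) ^ 3 := by gcongr
        _ = (N : ℝ) ^ (3 / 10 : ℝ) := by
            rw [← Real.rpow_natCast, ← Real.rpow_mul hN0.le]
            norm_num
        _ ≤ (N : ℝ) ^ (1 : ℝ) := Real.rpow_le_rpow_of_exponent_le hN1 (by norm_num)
        _ = N := Real.rpow_one _
        _ ≤ x := hxN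
    exact_mod_cast h1
  obtain ⟨s, hs⟩ : ∃ s : ℝ, s = (#S : ℝ) := ⟨_, rfl⟩
  have hs0 : 0 < s := by
    rw [← hs] at hdens2
    by_contra hcon
    push Not at hcon
    have : s * L ^ (e + 1) ≤ 0 := mul_nonpos_of_nonpos_of_nonneg hcon (by positivity)
    linarith
  obtain ⟨NL, hNL⟩ : ∃ NL : ℝ, NL = (#S : ℝ) / L ^ k := ⟨_, rfl⟩
  have hNL0 : 0 < NL := by rw [hNL, ← hs]; positivity
  have hDd : ((#S : ℕ) : ℝ) / (F.natDegree * L) ^ k = D * NL := by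
    rw [hD, hD1, hNL, mul_pow, div_pow, one_pow]
    field_simp
  -- the exceptions
  have hxX : X1 ≤ x := by
    have h1 : N ≤ x := by exact_mod_cast hxN
    omega
  obtain ⟨Bt, hBt2, hBt3⟩ := hX1 x hxX
  rw [← hw] at hBt3
  have hBtc : k * (#Bt : ℝ) * L ^ k ≤ θ * A := by
    have h1 : (#Bt : ℝ) ≤ 3 * (A * L ^ B * L ^ B) / L ^ (2 * B + k + 1) := by
      refine hBt2.trans ?_
      apply div_le_div₀ (by positivity) _ (by positivity) (pow_le_pow_left₀ hL0.le hlx1 _)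
      refine hx2.trans ?_
      have h2 : P ≤ A * L ^ B := by rw [hP, hL]; exact hA1
      gcongr
    have h2 : 3 * (A * L ^ B * L ^ B) / L ^ (2 * B + k + 1) = 3 * A / L ^ (k + 1) := by
      rw [two_mul, add_assoc (B + B), pow_add L (B + B), pow_add L B]
      field_simp
    rw [h2] at h1
    have h3 : 3 * (k : ℝ) ≤ θ * L := by
      have h4 : 3 * (k : ℝ) / θ ≤ L := by linarith
      rw [div_le_iff₀ hθ0] at h4
      linarith
    calc k * (#Bt : ℝ) * L ^ k ≤ k * (3 * A / L ^ (k + 1)) * L ^ k := by gcongr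
      _ = (3 * k) * (A / L) := by
          rw [pow_succ]
          field_simp
      _ ≤ (θ * L) * (A / L) := by gcongr
      _ = θ * A := by field_simp
  have hclose : ∀ t ∈ inj k H ×ˢ Icc 1 (A - H), (∀ i, b + (sh t.2 t.1 i : ℤ) ∉ Bt) → ∀ z : ℕ, w ≤ z → z ^ 3 ≤ x →
      |gG G (Fb F b) (sh t.2 t.1) z - gG G (Fb F b) (sh t.2 t.1) w| ≤ θ * gG G (Fb F b) (sh t.2 t.1) w := by
    intro t ht hB z hwz hz3
    rw [mem_product, mem_Icc] at ht
    obtain ⟨ht1, ht2, ht3⟩ := ht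
    have ht4 : ∀ i, 1 ≤ sh t.2 t.1 i ∧ sh t.2 t.1 i ≤ A := by
      intro i
      have h4 := (mem_inj.1 ht1).1 i
      unfold sh
      omega
    have hx1 : 2 * (P * L ^ B) ≤ x := by rw [hx]; exact Nat.le_ceil _
    have hbr : |(b : ℝ)| ≤ P * L ^ B := by rw [hP, hL]; exact hb
    have hAr : (A : ℝ) ≤ P * L ^ B := by rw [hP, hL]; exact hA2
    refine hBt3 b (sh t.2 t.1) (sh_injective (mem_inj.1 ht1).2) (fun i => ?_) (fun i => ?_) hB z hwz hz3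
    · have h5 : (A : ℝ) ≤ x := by
        have : 0 ≤ P * L ^ B := by positivity
        linarith
      have h6 : A ≤ x := by exact_mod_cast h5
      rw [mem_Icc]
      have := ht4 i
      omega
    · have h5 : ((|b| : ℤ) : ℝ) + A ≤ x := by
        push_cast
        linarith
      have h6 : |b| + (A : ℤ) ≤ x := by exact_mod_cast h5
      have h7 := neg_abs_le b
      have h8 := le_abs_self b
      rw [mem_Icc]
      have := ht4 i
      omega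
  have hVz : Vz z0 ≤ 1 / (κ1 * L) := by
    have h1 : Vz z0 ≤ 1 / Real.log z0 := Pool.Agent.N792.V1_le z0 hz02
    refine h1.trans (one_div_le_one_div_of_le (by positivity) ?_)
    have h2 := Real.log_le_log (by positivity) hz0κ
    rw [Real.log_rpow hN0, ← hL] at h2
    exact h2
  have hVz0 : 0 < Vz z0 := Pool.Agent.H373R2.T7.Vz_pos z0
  have hVGz0 := VG_pos hNF z0
  have hup0 : ∀ t ∈ inj k H ×ˢ Icc 1 (A - H), gG G (Fb F b) (sh t.2 t.1) z0 ≤ 2 * gG G (Fb F b) (sh t.2 t.1) w →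
      (PS S (Fb F b) (sh t.2 t.1) : ℝ) ≤ C2 * NL * gG G (Fb F b) (sh t.2 t.1) w + θ * NL := by
    intro t _ h2
    have h5 := hz0P b hb (sh t.2 t.1) S hSN hSG
    obtain ⟨Gw, hGw⟩ : ∃ Gw : ℝ, Gw = gG G (Fb F b) (sh t.2 t.1) w := ⟨_, rfl⟩
    obtain ⟨Gz, hGz⟩ : ∃ Gz : ℝ, Gz = gG G (Fb F b) (sh t.2 t.1) z0 := ⟨_, rfl⟩
    have hGz0 : 0 ≤ Gz := by rw [hGz]; exact gG_nonneg _ _ _ _
    rw [← hGz, ← hGw] at h2
    rw [← hGz] at h5
    rw [← hGw]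
    refine h5.trans ?_
    rw [← hs] at hdens1 hdens2
    have h6 : C1 * N * (VG G z0 * Vz z0 ^ k * Gz) ≤ C2 * NL * Gw := by
      calc C1 * N * (VG G z0 * Vz z0 ^ k * Gz) = C1 * (N * VG G z0) * (Vz z0 ^ k * Gz) := by ring
        _ ≤ C1 * (s / Cd) * ((1 / (κ1 * L)) ^ k * (2 * Gw)) := by gcongr
        _ = C2 * NL * Gw := by
            rw [hC2, hNL, ← hs, div_pow, one_pow, mul_pow]
            field_simp
    have h7 : C1 * (N : ℝ) ^ (1 - 1 / (2 * (F.natDegree : ℝ))) ≤ θ * NL := by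
      have h8 : (N : ℝ) = (N : ℝ) ^ (1 - 1 / (2 * (F.natDegree : ℝ))) * (N : ℝ) ^ (1 / (2 * (F.natDegree : ℝ))) := by
        rw [← Real.rpow_add hN0]
        have : 1 - 1 / (2 * (F.natDegree : ℝ)) + 1 / (2 * (F.natDegree : ℝ)) = 1 := by ring
        rw [this, Real.rpow_one]
      rw [hNL, ← hs, mul_div_assoc', le_div_iff₀ (by positivity)]
      have h9 : C1 * L ^ (k + (e + 1)) ≤ θ * (N : ℝ) ^ (1 / (2 * (F.natDegree : ℝ))) := by
        rw [div_mul_eq_mul_div, div_le_iff₀ hθ0] at g2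
        linarith
      have h10 : (C1 * (N : ℝ) ^ (1 - 1 / (2 * (F.natDegree : ℝ))) * L ^ k) * L ^ (e + 1) ≤ (θ * s) * L ^ (e + 1) := by
        calc (C1 * (N : ℝ) ^ (1 - 1 / (2 * (F.natDegree : ℝ))) * L ^ k) * L ^ (e + 1) =
            (N : ℝ) ^ (1 - 1 / (2 * (F.natDegree : ℝ))) * (C1 * L ^ (k + (e + 1))) := by
              rw [pow_add]
              ring
          _ ≤ (N : ℝ) ^ (1 - 1 / (2 * (F.natDegree : ℝ))) * (θ * (N : ℝ) ^ (1 / (2 * (F.natDegree : ℝ)))) := by gcongr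
          _ = θ * ((N : ℝ) ^ (1 - 1 / (2 * (F.natDegree : ℝ))) * (N : ℝ) ^ (1 / (2 * (F.natDegree : ℝ)))) := by ring
          _ = θ * N := by rw [← h8]
          _ ≤ θ * (s * L ^ (e + 1)) := by gcongr
          _ = _ := by ring
      exact le_of_mul_le_mul_right h10 (by positivity)
    linarith
  have hzw : ∀ z : ℕ, L ^ (E2 + 1) ≤ z → z ^ 6 ≤ N → w ≤ z ∧ z ^ 3 ≤ x := by
    intro z hz1 hz2
    constructor
    · have h1 : (w : ℝ) ≤ z := by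
        refine hwdL.trans (le_trans ?_ hz1)
        rw [mul_pow, pow_succ, mul_comm (L ^ E2)]
        apply mul_le_mul_of_nonneg_right _ (by positivity)
        have h2 : (F.natDegree : ℝ) ^ E2 ≤ (2 * (F.natDegree : ℝ)) ^ E2 := by
          apply pow_le_pow_left₀ (by positivity)
          linarith
        have h3 : 0 ≤ (2 * (F.natDegree : ℝ)) ^ E2 := by positivity
        linarith
      exact_mod_cast h1
    · have h2 : z ^ 3 ≤ z ^ 6 := by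
        rcases Nat.eq_zero_or_pos z with h | h
        · rw [h]
          norm_num
        · exact Nat.pow_le_pow_right h (by norm_num)
      have h3 : N ≤ x := by exact_mod_cast hxN
      omega
  have hAVa := hAV A (by omega) w hwA1 hwA2 H hHHA b
  have hSQa := hSQ A (by omega) w hw2 hwA2 H b
  have hFMa := hFM N (by omega) A H b hA1 hA2 hb (by rw [← hL]; exact hHB) hHc S hSN (by rw [← hL]; exact hdens2)
  rw [← hL] at hFMa
  have hfin := count_end G F hk F.natDegree E2 N A H0 H w x z0 b S Bt hη hη1 hD0 hD2 hθ hC20 (by linarith) hNL hNL0 hL hL0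
    hDd hc1 hA0 hHpos hHA' hHH0 hclose hup0 hwz0 hz03 hzw hBtc hSQa hAVa hFMa (min_le_left c1 cc)
  rw [← hc2] at hfin
  refine le_trans ?_ hfin
  calc min c1 cc * (A * (H0 : ℝ) ^ (k - 1)) ≤ cc * (A * (H0 : ℝ) ^ (k - 1)) := by
        apply mul_le_mul_of_nonneg_right (min_le_right _ _) (by positivity)
    _ = c2 * (A * (b2 * H0 / 2) ^ (k - 1)) := by
        rw [hcc]
        have : (b2 * (H0 : ℝ) / 2) ^ (k - 1) = (b2 / 2) ^ (k - 1) * (H0 : ℝ) ^ (k - 1) := by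
          rw [← mul_pow]
          congr 1
          ring
        rw [this]
        ring
    _ ≤ c2 * (A * (H : ℝ) ^ (k - 1)) := by gcongr

end Run7.h462.PA
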