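import Pool.Agent.Run7.h462.KT.Bas
import Pool.Agent.Run7.h994.PR.FM

/-!
# Project PA (helper462): systems `F(n) + b + a_i`, `i ≤ k`, all primes, for `n` in ARBITRARY dense subsets `S` of the primes
(or of any sifted set `G(n)` free of primes `≤ N^κ`), for a positive proportion of the tuples of distinct integers
`a_i ≤ A` in a window of length `H ≥ C log N`, `N^(d-1) / log^B N ≤ A ≤ N^(d-1) log^B N`, `|b| ≤ N^(d-1) log^B N`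

Statements. Every statement is a `Prop` with a complete proof in its docstring. Most of them are the statements of project KT
(`Pool/Agent/Run7/h462/KT/Stm.lean`) with an additional fixed factor `G` and uniformly in the shift `b`; please adapt the proofs there.
-/

set_option autoImplicit false

namespace Run7.h462.PA

open Finset Filter Topology
open Pool.Agent.H373R2.T7 (pz Vz)
open Pool.Agent.TH204.WR (rho)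
open Run7.h462.KT (Q sh inj ov)
open Run7.h994.PR (fi)
open scoped Polynomial

/-- the polynomial `F + b` -/
noncomputable def Fb (F : ℤ[X]) (b : ℤ) : ℤ[X] := F + Polynomial.C b

/-- the number of the residues `n` modulo `p` such that `p` divides `G(n)` or some `F(n) + a_i` -/
noncomputable def rG {k : ℕ} (G F : ℤ[X]) (a : Fin k → ℕ) (p : ℕ) : ℕ := rho (G * Q F a) 0 p

/-- the density of the `n` with `G(n)` free of primes `≤ z` -/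
noncomputable def VG (G : ℤ[X]) (z : ℕ) : ℝ := ∏ p ∈ pz z, (1 - (rho G 0 p : ℝ) / p)

/-- the truncated singular series of the tuple relative to `G` -/
noncomputable def gG {k : ℕ} (G F : ℤ[X]) (a : Fin k → ℕ) (z : ℕ) : ℝ :=
  (∏ p ∈ pz z, (1 - (rG G F a p : ℝ) / p)) / (VG G z * Vz z ^ k)

/-- the number of the `n ∈ S` for which all `F(n) + a_i` are primes -/
def PS {k : ℕ} (S : Finset ℕ) (F : ℤ[X]) (a : Fin k → ℕ) : ℕ :=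
  #(S.filter (fun n : ℕ => ∀ i, Nat.Prime (F.eval (n : ℤ) + a i).toNat))

/-- `G` has no fixed prime divisor -/
def NF (G : ℤ[X]) : Prop := ∀ p : ℕ, p.Prime → rho G 0 p < p

/-- **VGR**: the densities. Proof. `rho G 0 p ≤ g = G.natDegree` for all `p` (`rho_le_deg`). For `p ≥ 2 g + 2`:
`1 - g / p ≥ (1 - 1/p)^(2 g)`; the other factors are at least `1 / p` and there are at most `2 g + 2` of them. `Vz z ≥ c / log z`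
(`Pool.Agent.N792.Shp.V1_lower`), `Vz w ≤ 1 / log w` (`Pool.Agent.N792.V1_le`), `Vz z = V1 z` by `rfl`. -/
def S_VGR (G : ℤ[X]) : Prop := ∃ c : ℝ, 0 < c ∧ c ≤ 1 ∧ ∃ e : ℕ, ∀ w z : ℕ, 2 ≤ w → w ≤ z →
  c * (Real.log w / Real.log z) ^ e * VG G w ≤ VG G z

/-- **MSX**: primes in almost all short intervals, in a long range. Proof. `Run7.h373.CR.sia` at `q = 1`, `a = 0` (`cc 1 0 = 1`) with `U + 2`
on the dyadic ranges `(x, 2x]`, `x = ⌊X / 2^j⌋`, `j ≤ J`, `X / 2^J ≤ X / log^D X`, that is `J ≤ 2 D log log X + 2 ≤ log X` ranges; `log x ≥ (log X) / 2`. -/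
def S_MSX : Prop := ∀ D U : ℕ, ∃ X₀ : ℕ, ∀ X : ℕ, X₀ ≤ X → ∀ Y : ℕ, (X : ℝ) ^ (2 / 5 : ℝ) ≤ Y → (Y : ℝ) * Real.log X ^ (D + 1) ≤ X →
  ∑ m ∈ (Icc 1 X).filter (fun m : ℕ => (X : ℝ) ≤ m * Real.log X ^ D),
    |∑ n ∈ Ioc m (m + Y), ArithmeticFunction.vonMangoldt n - Y| ≤ X * (Y : ℝ) / Real.log X ^ U

/-- **AA**: the right number of primes in almost all intervals `(F(n) + b, F(n) + b + A]`. Proof. Let `v_n = F(n) + b`,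
`n₁ = N / log^(U+1) N ≤ n ≤ N` (the smaller `n` are exceptions); `v_n ≥ (1/4) n^d`, `X = 2 lc N^d ≥ v_n + 2 A`, and `F(n + 1) - F(n) ≥ n₁^(d-1)`
for the `n ≥ n₁`. Let `Y = ⌊ρ' A⌋`. By averaging `A - Y - (1/Y) T_n ≤ ∑_{v_n < m ≤ v_n + A} Λ(m) ≤ A + Y + (1/Y) T_n`, where `T_n` is the sum of
`|∑_{(m, m+Y]} Λ - Y|` over `v_n - Y < m ≤ v_n + A`. Every `m` is in at most `1 + 2 A / n₁^(d-1) ≤ log^(D') N` of these intervals, so by MSX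
`∑_n T_n ≤ log^(D') N X Y / log^(U') X`, and `T_n > ρ' Y A` for at most `N / log^(U+2) N` of the `n`. Similarly the number of the proper prime powers
(`≤ 2 √X log X` of them up to `2 X`) in the intervals. The weights are `log p = (d + o(1)) log N`. -/
def S_AA (F : ℤ[X]) : Prop := ∀ (B U : ℕ) (ρ : ℝ), 0 < ρ → ∃ N₀ : ℕ, ∀ N : ℕ, N₀ ≤ N → ∀ (A : ℕ) (b : ℤ),
  (N : ℝ) ^ (F.natDegree - 1) ≤ A * Real.log N ^ B → (A : ℝ) ≤ (N : ℝ) ^ (F.natDegree - 1) * Real.log N ^ B →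
  (|b| : ℝ) ≤ (N : ℝ) ^ (F.natDegree - 1) * Real.log N ^ B →
  ∃ Ex : Finset ℕ, (#Ex : ℝ) ≤ N / Real.log N ^ U ∧ ∀ n ∈ Icc 1 N, n ∉ Ex →
    |∑ y ∈ Icc 1 A, fi (Fb F b) n y - A / (F.natDegree * Real.log N)| ≤ ρ * (A / (F.natDegree * Real.log N))

/-- **FMG**: the lower bound for the tuples on average (from AA). Proof. As `Pool/Agent/Run7/h462/KT/Fmk.lean`, on the pairs `(n, y)`,
`n ∈ S` outside the exceptions of AA. -/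
def S_FMG (F : ℤ[X]) (k : ℕ) : Prop := ∀ η : ℝ, 0 < η → ∃ c₀ B₁ : ℝ, 0 < c₀ ∧ 0 < B₁ ∧ ∀ B U : ℕ, ∃ N₀ : ℕ,
  ∀ N : ℕ, N₀ ≤ N → ∀ (A H : ℕ) (b : ℤ),
  (N : ℝ) ^ (F.natDegree - 1) ≤ A * Real.log N ^ B → (A : ℝ) ≤ (N : ℝ) ^ (F.natDegree - 1) * Real.log N ^ B →
  (|b| : ℝ) ≤ (N : ℝ) ^ (F.natDegree - 1) * Real.log N ^ B → B₁ * Real.log N ≤ H → (H : ℝ) ≤ c₀ * A →
  ∀ S : Finset ℕ, S ⊆ Icc 1 N → (N : ℝ) ≤ #S * Real.log N ^ U →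
  (1 - η) * (A * (H : ℝ) ^ k * (#S / (F.natDegree * Real.log N) ^ k)) ≤
    ∑ h ∈ inj k H, ∑ y ∈ Icc 1 (A - H), (PS S (Fb F b) (sh y h) : ℝ)

/-- **UPG**: pointwise upper bound. Proof: as `Run7.h824.KT.upk` with `flp (G.natDegree + k d)` for the polynomial `G * Q (F + b) a`
(if `d = F.natDegree`). The `n ≤ N` with `F(n) + b ≤ z` are at most `n₀ + 2 (2 log^B N + 2) N^(1 - 1/d) ≤ N^(1 - 1/(2 d))` in number, because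
`F(n) ≥ n^d / 2` for `n ≥ n₀`. -/
def S_UPG (G F : ℤ[X]) (k : ℕ) : Prop := ∀ (B : ℕ) (κ : ℝ), 0 < κ → ∃ C : ℝ, 1 ≤ C ∧ ∃ κ₁ : ℝ, 0 < κ₁ ∧ κ₁ ≤ 1 / 10 ∧ κ₁ ≤ κ ∧
  ∃ N₀ : ℕ, ∀ N : ℕ, N₀ ≤ N → ∃ z : ℕ, 2 ≤ z ∧ (N : ℝ) ^ κ₁ ≤ z ∧ (z : ℝ) ≤ (N : ℝ) ^ (1 / 10 : ℝ) ∧ (z : ℝ) ≤ (N : ℝ) ^ κ ∧
  ∀ b : ℤ, (|b| : ℝ) ≤ (N : ℝ) ^ (F.natDegree - 1) * Real.log N ^ B → ∀ (a : Fin k → ℕ) (S : Finset ℕ), S ⊆ Icc 1 N →
  (∀ n ∈ S, ∀ p : ℕ, p.Prime → (p : ℝ) ≤ (N : ℝ) ^ κ → ¬ (p : ℤ) ∣ G.eval (n : ℤ)) →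
  (PS S (Fb F b) a : ℝ) ≤ C * N * (VG G z * Vz z ^ k * gG G (Fb F b) a z) + C * (N : ℝ) ^ (1 - 1 / (2 * (F.natDegree : ℝ)))

/-- **AVG**: the first moment (from `KT.S_GA`). Proof: as `Run7.h824.KT.avk`: count the pairs `n, y ≤ A` with `G(n) Q (F + b) (sh y h) (n)` free
of primes `≤ w`; from below for fixed `y` by `flp (g + k d)`; from above: for fixed `n` by `flp k` for `Q X h` at the shift `F(n) + b`, and the number of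
the `n` with `G(n)` free of primes `≤ w` is at most `(1 + ε) A VG G w` by `flp g` (if `g = G.natDegree = 0` it is at most `A` and `VG G w = 1`). -/
def S_AVG (G F : ℤ[X]) (k : ℕ) : Prop := ∀ (E : ℕ) (θ : ℝ), 0 < θ → ∃ A₀ H₀ : ℕ, ∀ A : ℕ, A₀ ≤ A → ∀ w : ℕ,
  Real.log A ≤ w → (w : ℝ) ≤ Real.log A ^ E → ∀ H : ℕ, H₀ ≤ H → ∀ b : ℤ,
  ∑ h ∈ inj k H, ∑ y ∈ Icc 1 A, gG G (Fb F b) (sh y h) w ≤ (1 + θ) * (A * (H : ℝ) ^ k)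

/-- **SQG**: the second moment (from `KT.S_OV`, VGR). Proof: as `Run7.h824.KT.sqk`. Local factor, `p` large: `r = rG ≤ D = g + k d`; the mean over
`y` modulo `p` of `r` is `ρ + (p - ρ) ν / p`, `ρ = rho G 0 p ≤ g`, `ν = rk X h p ≤ k`; so the mean of `(1 - r/p)²` is at most
`1 - (2/p - D/p²)(ρ + ν - ρ ν / p) ≤ 1 - 2 (ρ + ν)/p + C/p²`, and `(1 - ρ/p)² (1 - 1/p)^(2k) ≥ 1 - 2 (ρ + k)/p` is at least `4^(-k-1)` for `p ≥ 2 g`. For the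
other `p` the local factor is at most `p² 4^k`. -/
def S_SQG (G F : ℤ[X]) (k : ℕ) : Prop := ∀ E : ℕ, ∃ C : ℝ, 1 ≤ C ∧ ∃ A₀ : ℕ, ∀ A : ℕ, A₀ ≤ A → ∀ w : ℕ, 2 ≤ w →
  (w : ℝ) ≤ Real.log A ^ E → ∀ (H : ℕ) (b : ℤ),
  ∑ h ∈ inj k H, ∑ y ∈ Icc 1 A, (gG G (Fb F b) (sh y h) w) ^ 2 ≤ C * (A * (H : ℝ) ^ k)

/-- **CLG**: the singular series does not depend on the cut. Proof. `gG G F' a z = gk F' a z ∏_{p ≤ z} e_p`,
`e_p = (1 - rG/p) / ((1 - rk/p) (1 - ρ/p))` (if no `rk = p`), `ρ = rho G 0 p`. For `gk`: `KT.close_one` for `F' = F + b` with `tail_all F _ 1 U` at the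
integers `b + a_i` (`rho (F + b) a p = rho F (b + a) p`, so `hh (F + b) a = hh F (b + a)`). For the `e_p`, `y < p ≤ z`: `rG ≤ rk + ρ` with equality if
`G` and `∏ (F' + a_i)` have no common root modulo `p`, always `rG ≥ rk, ρ`; so `|e_p - 1| ≤ 4 D²/p²`, and `≤ 4 D / p` for the `p` with a common root. The
`t = b + a_i ∈ [-x, x]` for which the sum of `1/p` over the `p ∈ (y, x^(1/3)]` such that `p ∣ G(n), F(n) + t` for some `n` exceeds `1 / log x` are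
at most `4 g x log x / y` in number (`≤ g (2x/p + 1)` of the `t` for every `p`). -/
def S_CLG (G F : ℤ[X]) (k : ℕ) : Prop := ∀ (U : ℕ) (θ : ℝ), 0 < θ → ∃ E₀ : ℕ, ∀ E : ℕ, E₀ ≤ E → ∃ X₀ : ℕ, ∀ x : ℕ, X₀ ≤ x →
  ∃ Bt : Finset ℤ, (#Bt : ℝ) ≤ x / Real.log x ^ U ∧
  ∀ (b : ℤ) (a : Fin k → ℕ), Function.Injective a → (∀ i, a i ∈ Icc 1 x) → (∀ i, b + a i ∈ Icc (-(x : ℤ)) x) → (∀ i, b + a i ∉ Bt) →
  ∀ z : ℕ, ⌊Real.log x ^ E⌋₊ ≤ z → z ^ 3 ≤ x →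
    |gG G (Fb F b) a z - gG G (Fb F b) a ⌊Real.log x ^ E⌋₊| ≤ θ * gG G (Fb F b) a ⌊Real.log x ^ E⌋₊

/-- the property of the good tuples -/
def GoodP {k : ℕ} (G F : ℤ[X]) (d : ℕ) (η c : ℝ) (E N : ℕ) (S : Finset ℕ) (a : Fin k → ℕ) : Prop :=
  ∀ z : ℕ, Real.log N ^ E ≤ z → z ^ 6 ≤ N →
    c ≤ gG G F a z ∧ (1 - η) * (gG G F a z * (#S / (d * Real.log N) ^ k)) ≤ PS S F a

open Classical in
/-- **FIN**: the theorem. Written by helper462. -/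
def S_PA (G F : ℤ[X]) (k : ℕ) : Prop := ∀ (B : ℕ) (κ δ η : ℝ), 0 < κ → κ ≤ 1 → 0 < δ → 0 < η → η ≤ 1 / 2 →
  ∃ (E : ℕ) (c C₀ : ℝ), 0 < c ∧ 0 < C₀ ∧ ∃ N₀ : ℕ, ∀ N : ℕ, N₀ ≤ N → ∀ (A H : ℕ) (b : ℤ),
  (N : ℝ) ^ (F.natDegree - 1) ≤ A * Real.log N ^ B → (A : ℝ) ≤ (N : ℝ) ^ (F.natDegree - 1) * Real.log N ^ B →
  (|b| : ℝ) ≤ (N : ℝ) ^ (F.natDegree - 1) * Real.log N ^ B → C₀ * Real.log N ≤ H → H ≤ A →
  ∀ S : Finset ℕ, S ⊆ Icc 1 N → (∀ n ∈ S, ∀ p : ℕ, p.Prime → (p : ℝ) ≤ (N : ℝ) ^ κ → ¬ (p : ℤ) ∣ G.eval (n : ℤ)) →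
  δ * (N * VG G ⌊(N : ℝ) ^ κ⌋₊) ≤ #S →
  c * (A * (H : ℝ) ^ (k - 1)) ≤ (#((Fintype.piFinset (fun _ : Fin k => Icc 1 A)).filter
    (fun a => Function.Injective a ∧ (∀ i j, a i ≤ a j + H) ∧ GoodP G (Fb F b) F.natDegree η c E N S a)) : ℝ)

end Run7.h462.PA
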