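import Pool.Agent.Run7.h462.PA.AA
import Pool.Agent.Run7.h462.PA.Cor
import Pool.Agent.Run7.h56.PA.MSX
import Pool.Agent.Run7.h56.PA.FMG
import Pool.Agent.Run7.h824.PA.UPG
import Pool.Agent.Run7.h824.PA.AVG
import Pool.Agent.Run7.h824.PA.SQG
import Pool.Agent.Run7.h760.PA.CLG
import Pool.Agent.Run7.h957.PA.VGR
import Pool.Agent.Run7.h304.KT.OV
import Pool.Agent.Run7.h304.KT.GA
import Pool.Agent.Run7.h794.MK.SiaAll

/-!
# Project PA: the assembled theorem
-/

set_option autoImplicit false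

namespace Run7.h462.PA

open scoped Polynomial

/-- the theorem of project PA -/
theorem pa (G F : ℤ[X]) (k : ℕ) (hk : 1 ≤ k) (hd2 : 2 ≤ F.natDegree) (hl : 0 < F.leadingCoeff) (hG : NF G) (hG0 : G ≠ 0) :
    S_PA G F k := by
  have hOV : Run7.h462.KT.S_OV k := Run7.h304.KT.ov_main k
  have hGA := Run7.h304.KT.ga_main k hk hOV
  have hAA := aa F hd2 hl (Run7.h56.PA.msx Pool.Agent.Run7.h794.MK.sia_all)
  have hVG := Run7.h957.PA.vgr G hG
  exact core G F k hk hd2 hG (Run7.h56.PA.fmg F k hk (by omega) hAA) (Run7.h824.PA.upg G F k hl (by omega) hk hG)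
    (Run7.h824.PA.sqg G F k hl.ne' (by omega) hG hOV hVG) (Run7.h824.PA.avg G F k (by omega) hk hG hGA)
    (Run7.h760.PA.clg G F k (by omega) hG0) hVG

end Run7.h462.PA
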