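import Pool.Agent.Run7.h462.KT.Fin
import Pool.Agent.Run7.h824.PA.Bas

/-! Project PA: assembly. -/

set_option autoImplicit false

namespace Run7.h462.PA

open Finset Filter Topology
open Pool.Agent.H373R2.T7 (pz Vz)
open Pool.Agent.TH204.WR (rho)
open Run7.h462.KT (Q sh inj ov mem_inj card_inj_le sh_injective count_goodI fibre)
open Run7.h757.BP.Fin (rpow_ge_log)
open Run7.h824.PA (VG_pos VG_le_one VG_nonneg gG_nonneg)
open scoped Polynomial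

variable {k : ℕ}

lemma PS_le (S : Finset ℕ) (F : ℤ[X]) (a : Fin k → ℕ) : (PS S F a : ℝ) ≤ #S := by
  unfold PS
  exact_mod_cast card_filter_le _ _

/-- the density of `G` at the level of the sieve, and the size of `S` -/
lemma dens {G : ℤ[X]} (hNF : NF G) {cV : ℝ} {e : ℕ} (hcV : 0 < cV)
    (hV : ∀ w z : ℕ, 2 ≤ w → w ≤ z → cV * (Real.log w / Real.log z) ^ e * VG G w ≤ VG G z)
    {κ κ1 δ : ℝ} (hκ : 0 < κ) (hκ1 : κ ≤ 1) (hκ2 : 0 < κ1) (hδ : 0 < δ) {N z0 : ℕ} {L s : ℝ} (hL : L = Real.log N) (hN : 3 ≤ N)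
    (hz2 : 2 ≤ z0) (hz1 : (N : ℝ) ^ κ1 ≤ z0) (hzκ : (z0 : ℝ) ≤ (N : ℝ) ^ κ) (hs : δ * (N * VG G ⌊(N : ℝ) ^ κ⌋₊) ≤ s)
    (hL2 : 1 / (δ * cV * Real.log 2 ^ e * VG G 2) ≤ L) :
    N * VG G z0 ≤ s / (δ * cV * κ1 ^ e) ∧ (N : ℝ) ≤ s * L ^ (e + 1) := by
  have hN0 : (0 : ℝ) < N := by exact_mod_cast (by omega : 0 < N)
  have hN1 : (1 : ℝ) ≤ N := by exact_mod_cast (by omega : 1 ≤ N)
  have hL0 : 0 < L := by
    rw [hL]
    apply Real.log_pos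
    exact_mod_cast (by omega : 1 < N)
  obtain ⟨z, hz⟩ : ∃ z : ℕ, z = ⌊(N : ℝ) ^ κ⌋₊ := ⟨_, rfl⟩
  rw [← hz] at hs
  have hz0z : z0 ≤ z := by rw [hz]; exact Nat.le_floor hzκ
  have hz20 : (2 : ℝ) ≤ z0 := by exact_mod_cast hz2
  have hzr : (2 : ℝ) ≤ z := by exact_mod_cast (by omega : 2 ≤ z)
  have hlz0 : 0 < Real.log z := Real.log_pos (by linarith)
  have hlz : Real.log z ≤ L := by
    have h1 : (z : ℝ) ≤ (N : ℝ) ^ κ := by rw [hz]; exact Nat.floor_le (by positivity)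
    have h2 : (N : ℝ) ^ κ ≤ N := by
      calc (N : ℝ) ^ κ ≤ (N : ℝ) ^ (1 : ℝ) := Real.rpow_le_rpow_of_exponent_le hN1 hκ1
        _ = N := Real.rpow_one _
    rw [hL]
    exact Real.log_le_log (by linarith) (h1.trans h2)
  have hlz1 : κ1 * L ≤ Real.log z0 := by
    have h2 := Real.log_le_log (by positivity) hz1
    rw [Real.log_rpow hN0, ← hL] at h2
    exact h2
  have hVz0 := VG_pos hNF z0
  have hV2 := VG_pos hNF 2
  have hVz := VG_pos hNF z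
  have hl2 : 0 < Real.log 2 := Real.log_pos (by norm_num)
  constructor
  · rw [le_div_iff₀ (by positivity)]
    have h1 := hV z0 z hz2 hz0z
    have h2 : κ1 ^ e ≤ (Real.log z0 / Real.log z) ^ e := by
      apply pow_le_pow_left₀ hκ2.le
      rw [le_div_iff₀ hlz0]
      exact (mul_le_mul_of_nonneg_left hlz hκ2.le).trans hlz1
    calc N * VG G z0 * (δ * cV * κ1 ^ e) = δ * (N * (cV * κ1 ^ e * VG G z0)) := by ring
      _ ≤ δ * (N * (cV * (Real.log z0 / Real.log z) ^ e * VG G z0)) := by gcongr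
      _ ≤ δ * (N * VG G z) := by gcongr
      _ ≤ s := hs
  · have h1 := hV 2 z le_rfl (by omega)
    have h2 : (Real.log 2 / L) ^ e ≤ (Real.log ((2 : ℕ) : ℝ) / Real.log z) ^ e := by
      push_cast
      gcongr
    have h3 : δ * (N * (cV * (Real.log 2 / L) ^ e * VG G 2)) ≤ s := by
      refine le_trans ?_ hs
      have h4 : cV * (Real.log 2 / L) ^ e * VG G 2 ≤ VG G z := by
        refine le_trans ?_ h1
        gcongr
      gcongr
    rw [div_le_iff₀ (by positivity)] at hL2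
    have h5 : (δ * (N * (cV * (Real.log 2 / L) ^ e * VG G 2))) * L ^ (e + 1) = N * (L * (δ * cV * Real.log 2 ^ e * VG G 2)) := by
      rw [div_pow, pow_succ]
      field_simp
    calc (N : ℝ) = N * 1 := by ring
      _ ≤ N * (L * (δ * cV * Real.log 2 ^ e * VG G 2)) := by gcongr
      _ = (δ * (N * (cV * (Real.log 2 / L) ^ e * VG G 2))) * L ^ (e + 1) := h5.symm
      _ ≤ s * L ^ (e + 1) := by gcongr

lemma two_c (C2 NL θ c1 : ℝ) (h : 0 < C2) (hc1 : c1 = θ / (2 * C2)) : C2 * NL * (2 * c1) = θ * NL := by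
  rw [hc1]
  field_simp

lemma exP_num {c s kk Hk Bc A Lk θ NL M : ℝ} (hc : c ≤ kk * (Hk * Bc)) (hs : 0 ≤ s) (hHk : 0 ≤ Hk) (hLk : 0 < Lk)
    (hNL : NL = s / Lk) (hBt : kk * Bc * Lk ≤ θ * A) (hM : M = A * Hk) : c * s ≤ θ * (M * NL) := by
  have hNL0 : 0 ≤ NL := by rw [hNL]; positivity
  calc c * s ≤ (kk * (Hk * Bc)) * s := mul_le_mul_of_nonneg_right hc hs
    _ = (kk * Bc * Lk) * (Hk * NL) := by
        rw [hNL]
        field_simp
    _ ≤ (θ * A) * (Hk * NL) := mul_le_mul_of_nonneg_right hBt (by positivity)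
    _ = θ * (M * NL) := by rw [hM]; ring

/-- the exceptional tuples -/
lemma card_Ex (H : ℕ) (A : ℕ) (b : ℤ) (Bt : Finset ℤ) :
    (#((inj k H ×ˢ Icc 1 (A - H)).filter (fun t => ∃ i, b + (sh t.2 t.1 i : ℤ) ∈ Bt)) : ℝ) ≤ k * ((H : ℝ) ^ k * #Bt) := by
  classical
  obtain ⟨T, hT⟩ : ∃ T : Finset ((Fin k → ℕ) × ℕ), T = inj k H ×ˢ Icc 1 (A - H) := ⟨_, rfl⟩
  rw [← hT]
  have hTm : ∀ t ∈ T, t.1 ∈ inj k H ∧ 1 ≤ t.2 ∧ t.2 ≤ A - H := by
    intro t ht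
    rw [hT, mem_product, mem_Icc] at ht
    exact ht
  have h1 : T.filter (fun t => ∃ i, b + (sh t.2 t.1 i : ℤ) ∈ Bt) ⊆
      (univ : Finset (Fin k)).biUnion (fun i => T.filter (fun t => b + (sh t.2 t.1 i : ℤ) ∈ Bt)) := by
    intro t ht
    rw [mem_filter] at ht
    obtain ⟨h2, i, hi⟩ := ht
    rw [mem_biUnion]
    exact ⟨i, mem_univ _, mem_filter.2 ⟨h2, hi⟩⟩
  have h2 : ∀ i : Fin k, #(T.filter (fun t => b + (sh t.2 t.1 i : ℤ) ∈ Bt)) ≤ H ^ k * #Bt := by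
    intro i
    have h3 : #(T.filter (fun t => b + (sh t.2 t.1 i : ℤ) ∈ Bt)) ≤ #(inj k H ×ˢ Bt) := by
      apply Finset.card_le_card_of_injOn (fun t => (t.1, b + (sh t.2 t.1 i : ℤ)))
      · intro t ht
        rw [mem_coe, mem_filter] at ht
        rw [mem_coe, mem_product]
        exact ⟨(hTm t ht.1).1, ht.2⟩
      · intro t ht s hs hts
        simp only [Prod.mk.injEq] at hts
        obtain ⟨h4, h5⟩ := hts
        unfold sh at h5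
        rw [h4] at h5
        have h6 : t.2 = s.2 := by
          push_cast at h5
          omega
        exact Prod.ext h4 h6
    refine h3.trans ?_
    rw [card_product]
    exact Nat.mul_le_mul_right _ (card_inj_le k H)
  have h3 : #(T.filter (fun t => ∃ i, b + (sh t.2 t.1 i : ℤ) ∈ Bt)) ≤ k * (H ^ k * #Bt) := by
    refine (card_le_card h1).trans (card_biUnion_le.trans ?_)
    refine (sum_le_sum fun i _ => h2 i).trans ?_
    simp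
  exact_mod_cast h3

open Classical in
/-- the counting at the end -/
lemma count_end (G F : ℤ[X]) (hk : 1 ≤ k) (d : ℕ) {η θ D C2 C3 NL L c1 c0 : ℝ} (E2 N A H0 H w x z0 : ℕ) (b : ℤ) (S : Finset ℕ)
    (Bt : Finset ℤ) (hη : 0 < η) (hη1 : η ≤ 1 / 2) (hD0 : 0 < D) (hD : D ≤ 1 / 2) (hθ : θ = η * D / 16) (hC2 : 0 < C2) (hC3 : 0 < C3)
    (hNL : NL = #S / L ^ k) (hNL0 : 0 < NL) (hL : L = Real.log N) (hL0 : 0 < L) (hDd : ((#S : ℕ) : ℝ) / (d * L) ^ k = D * NL)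
    (hc1 : c1 = θ / (2 * C2)) (hA0 : (0 : ℝ) < A) (hHpos : (0 : ℝ) < H) (hHA : H ≤ A) (hHH0 : H ≤ H0)
    (hclose : ∀ t ∈ inj k H ×ˢ Icc 1 (A - H), (∀ i, b + (sh t.2 t.1 i : ℤ) ∉ Bt) → ∀ z : ℕ, w ≤ z → z ^ 3 ≤ x →
      |gG G (Fb F b) (sh t.2 t.1) z - gG G (Fb F b) (sh t.2 t.1) w| ≤ θ * gG G (Fb F b) (sh t.2 t.1) w)
    (hup0 : ∀ t ∈ inj k H ×ˢ Icc 1 (A - H), gG G (Fb F b) (sh t.2 t.1) z0 ≤ 2 * gG G (Fb F b) (sh t.2 t.1) w →
      (PS S (Fb F b) (sh t.2 t.1) : ℝ) ≤ C2 * NL * gG G (Fb F b) (sh t.2 t.1) w + θ * NL)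
    (hz0w : w ≤ z0) (hz0x : z0 ^ 3 ≤ x) (hzw : ∀ z : ℕ, L ^ (E2 + 1) ≤ z → z ^ 6 ≤ N → w ≤ z ∧ z ^ 3 ≤ x)
    (hBt : k * (#Bt : ℝ) * L ^ k ≤ θ * A)
    (hSQ : ∑ h ∈ inj k H, ∑ y ∈ Icc 1 A, (gG G (Fb F b) (sh y h) w) ^ 2 ≤ C3 * (A * (H : ℝ) ^ k))
    (hAV : ∑ h ∈ inj k H, ∑ y ∈ Icc 1 A, gG G (Fb F b) (sh y h) w ≤ (1 + θ) * (A * (H : ℝ) ^ k))
    (hFM : (1 - θ) * (A * (H : ℝ) ^ k * (#S / (d * L) ^ k)) ≤ ∑ h ∈ inj k H, ∑ y ∈ Icc 1 (A - H), (PS S (Fb F b) (sh y h) : ℝ))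
    (hc0 : c0 ≤ c1) :
    η ^ 2 * D ^ 2 / (4 * C2 ^ 2 * C3) * (A * (H : ℝ) ^ (k - 1)) ≤ (#((Fintype.piFinset (fun _ : Fin k => Icc 1 A)).filter
      (fun a => Function.Injective a ∧ (∀ i j, a i ≤ a j + H0) ∧ GoodP G (Fb F b) d η c0 (E2 + 1) N S a)) : ℝ) := by
  have hθ0 : 0 < θ := by rw [hθ]; positivity
  have hθ64 : θ ≤ 1 / 64 := by
    have : η * D ≤ 1 / 2 * (1 / 2) := by gcongr
    rw [hθ]
    linarith
  have hc10 : 0 < c1 := by rw [hc1]; positivity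
  obtain ⟨T, hT⟩ : ∃ T : Finset ((Fin k → ℕ) × ℕ), T = inj k H ×ˢ Icc 1 (A - H) := ⟨_, rfl⟩
  rw [← hT] at hclose hup0
  have hTm : ∀ t ∈ T, t.1 ∈ inj k H ∧ 1 ≤ t.2 ∧ t.2 ≤ A - H := by
    intro t ht
    rw [hT, mem_product, mem_Icc] at ht
    exact ht
  have hTI : ∀ t ∈ T, ∀ i, sh t.2 t.1 i ∈ Icc 1 A := by
    intro t ht i
    obtain ⟨h1, h2, h3⟩ := hTm t ht
    have h4 := (mem_inj.1 h1).1 i
    rw [mem_Icc]
    unfold sh
    omega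
  have hTJ : ∀ t ∈ T, Function.Injective (sh t.2 t.1) := fun t ht => sh_injective (mem_inj.1 (hTm t ht).1).2
  obtain ⟨M, hM⟩ : ∃ M : ℝ, M = A * (H : ℝ) ^ k := ⟨_, rfl⟩
  have hM0 : 0 < M := by rw [hM]; positivity
  have hTc : (#T : ℝ) ≤ M := by
    rw [hT, card_product, Nat.card_Icc, Nat.add_sub_cancel, hM]
    push_cast
    rw [mul_comm]
    have h1 : ((A - H : ℕ) : ℝ) ≤ A := by exact_mod_cast Nat.sub_le A H
    have h2 : (#(inj k H) : ℝ) ≤ (H : ℝ) ^ k := by exact_mod_cast card_inj_le k H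
    gcongr
  obtain ⟨Ex, hEx⟩ : ∃ Ex : Finset ((Fin k → ℕ) × ℕ), Ex = T.filter (fun t => ∃ i, b + (sh t.2 t.1 i : ℤ) ∈ Bt) := ⟨_, rfl⟩
  have hExsub : Ex ⊆ T := by rw [hEx]; exact filter_subset _ _
  have hExc : (#Ex : ℝ) ≤ k * ((H : ℝ) ^ k * #Bt) := by
    have := card_Ex (k := k) H A b Bt
    rw [hEx, hT]
    convert this
  have hExn : ∀ t ∈ T, t ∉ Ex → ∀ i, b + (sh t.2 t.1 i : ℤ) ∉ Bt := by
    intro t ht htE i hB
    apply htE
    rw [hEx, mem_filter]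
    exact ⟨ht, i, hB⟩
  obtain ⟨G1, hG1⟩ : ∃ G1 : (Fin k → ℕ) × ℕ → ℝ, G1 = fun t => gG G (Fb F b) (sh t.2 t.1) w := ⟨_, rfl⟩
  have hG10 : ∀ t, 0 ≤ G1 t := by
    intro t
    rw [hG1]
    exact gG_nonneg _ _ _ w
  have hG1a : ∀ t : (Fin k → ℕ) × ℕ, gG G (Fb F b) (sh t.2 t.1) w = G1 t := fun t => by rw [hG1]
  have hSQ' : ∑ t ∈ T, G1 t ^ 2 ≤ C3 * M := by
    rw [hM]
    refine le_trans ?_ hSQ
    rw [hT, sum_product, hG1]
    apply sum_le_sum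
    intro h _
    apply sum_le_sum_of_subset_of_nonneg
    · apply Icc_subset_Icc_right
      omega
    · intro y _ _
      positivity
  have hAV' : ∑ t ∈ T, G1 t ≤ (1 + θ) * M := by
    rw [hM]
    refine le_trans ?_ hAV
    rw [hT, sum_product, hG1]
    apply sum_le_sum
    intro h _
    apply sum_le_sum_of_subset_of_nonneg
    · apply Icc_subset_Icc_right
      omega
    · intro y _ _
      exact gG_nonneg _ _ _ w
  simp only [hG1a] at hclose hup0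
  have hup : ∀ t ∈ T, t ∉ Ex → (PS S (Fb F b) (sh t.2 t.1) : ℝ) ≤ C2 * NL * G1 t + θ * NL := by
    intro t ht htE
    apply hup0 t ht
    have h1 := hclose t ht (hExn t ht htE) z0 hz0w hz0x
    have h2 := (abs_le.1 h1).2
    have h4 : θ * G1 t ≤ 1 * G1 t := mul_le_mul_of_nonneg_right (by linarith) (hG10 t)
    linarith
  have hbad : ∀ t ∈ T, t ∉ Ex → ¬ GoodP G (Fb F b) d η c1 (E2 + 1) N S (sh t.2 t.1) →
      (PS S (Fb F b) (sh t.2 t.1) : ℝ) ≤ (1 - η) * D * (1 + θ) * NL * G1 t + 2 * θ * NL := by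
    intro t ht htE hng
    unfold GoodP at hng
    push Not at hng
    obtain ⟨z, hz1, hz2, hz3⟩ := hng
    rw [← hL] at hz1 hz3
    have hη2 : 0 ≤ 1 - η := by linarith
    have hHa0 := hG10 t
    obtain ⟨hwz, hz3A⟩ := hzw z hz1 hz2
    have h1 := hclose t ht (hExn t ht htE) z hwz hz3A
    rw [abs_le] at h1
    rcases lt_or_ge (gG G (Fb F b) (sh t.2 t.1) z) c1 with hc | hc
    · have h2 : G1 t ≤ 2 * c1 := by
        have h4 : θ * G1 t ≤ 1 / 2 * G1 t := mul_le_mul_of_nonneg_right (by linarith) (hG10 t)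
        linarith
      have h3 := hup t ht htE
      have h4 : C2 * NL * G1 t ≤ C2 * NL * (2 * c1) := by gcongr
      have h5 : C2 * NL * (2 * c1) = θ * NL := two_c C2 NL θ c1 hC2 hc1
      have h6 : 0 ≤ (1 - η) * D * (1 + θ) * NL * G1 t := by positivity
      linarith
    · have h2 := hz3 hc
      refine h2.le.trans ?_
      have h3 : gG G (Fb F b) (sh t.2 t.1) z ≤ (1 + θ) * G1 t := by linarith
      rw [hDd]
      have h5 : 0 ≤ 2 * θ * NL := by positivity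
      calc (1 - η) * (gG G (Fb F b) (sh t.2 t.1) z * (D * NL)) ≤ (1 - η) * (((1 + θ) * G1 t) * (D * NL)) := by gcongr
        _ = (1 - η) * D * (1 + θ) * NL * G1 t := by ring
        _ ≤ _ := by linarith
  obtain ⟨Gd, hGd⟩ : ∃ Gd : Finset ((Fin k → ℕ) × ℕ),
    Gd = T.filter (fun t => GoodP G (Fb F b) d η c1 (E2 + 1) N S (sh t.2 t.1)) := ⟨_, rfl⟩
  have hExP : ∑ t ∈ Ex, (PS S (Fb F b) (sh t.2 t.1) : ℝ) ≤ θ * (M * NL) := by
    calc ∑ t ∈ Ex, (PS S (Fb F b) (sh t.2 t.1) : ℝ) ≤ ∑ _t ∈ Ex, (#S : ℝ) := sum_le_sum fun t _ => PS_le S _ _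
      _ = #Ex * #S := by rw [sum_const, nsmul_eq_mul]
      _ ≤ θ * (M * NL) := exP_num hExc (Nat.cast_nonneg _) (by positivity) (by positivity) hNL hBt hM
  have hFM' : (1 - θ) * (D * (M * NL)) ≤ ∑ t ∈ T, (PS S (Fb F b) (sh t.2 t.1) : ℝ) := by
    rw [hT, sum_product]
    refine le_trans (le_of_eq ?_) hFM
    rw [hDd, hM]
    ring
  have hGs : Gd ⊆ T := by rw [hGd]; exact filter_subset _ _
  have hfin : η ^ 2 * D ^ 2 / (4 * C2 ^ 2 * C3) * M ≤ (#Gd : ℝ) := by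
    refine count_goodI T Ex Gd (fun t => (PS S (Fb F b) (sh t.2 t.1) : ℝ)) G1 hη hη1 hD0 hD hθ hC2 hC3 hNL0 hM0 hTc
      hG10 hExsub hGs hup ?_ hExP hSQ' hAV' hFM'
    intro t ht htE htG
    refine hbad t ht htE (fun hg => htG ?_)
    rw [hGd, mem_filter]
    exact ⟨ht, hg⟩
  have hfib := fibre H hk Gd (fun t ht => (hTm t (hGs ht)).1)
  obtain ⟨R, hR⟩ : ∃ R : Finset (Fin k → ℕ), R = (Fintype.piFinset (fun _ : Fin k => Icc 1 A)).filter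
    (fun a => Function.Injective a ∧ (∀ i j, a i ≤ a j + H0) ∧ GoodP G (Fb F b) d η c0 (E2 + 1) N S a) := ⟨_, rfl⟩
  rw [← hR]
  have hsub : Gd.image (fun t => sh t.2 t.1) ⊆ R := by
    intro a ha
    rw [mem_image] at ha
    obtain ⟨t, ht, rfl⟩ := ha
    have htT := hGs ht
    rw [hGd, mem_filter] at ht
    rw [hR, mem_filter, Fintype.mem_piFinset]
    refine ⟨fun i => hTI t htT i, hTJ t htT, fun i j => ?_, ?_⟩
    · have h1 := (mem_inj.1 (hTm t htT).1).1 i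
      unfold sh
      omega
    · intro z hz1 hz2
      obtain ⟨h1, h2⟩ := ht.2 z hz1 hz2
      exact ⟨hc0.trans h1, h2⟩
  have hGR : (#Gd : ℝ) ≤ H * #R := by
    have h1 : #Gd ≤ H * #R := hfib.trans (Nat.mul_le_mul_left _ (card_le_card hsub))
    exact_mod_cast h1
  have hkk : (H : ℝ) ^ k = H * (H : ℝ) ^ (k - 1) := by
    rw [← pow_succ']
    congr 1
    omega
  have h11 : (H : ℝ) * (η ^ 2 * D ^ 2 / (4 * C2 ^ 2 * C3) * (A * (H : ℝ) ^ (k - 1))) ≤ H * #R := by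
    calc (H : ℝ) * (η ^ 2 * D ^ 2 / (4 * C2 ^ 2 * C3) * (A * (H : ℝ) ^ (k - 1))) = η ^ 2 * D ^ 2 / (4 * C2 ^ 2 * C3) * M := by
          rw [hM, hkk]
          ring
      _ ≤ _ := hfin.trans hGR
  exact le_of_mul_le_mul_left h11 hHpos

end Run7.h462.PA
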